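import Pool.Agent.TH893.CL.Black

/-!
# Higher correlations of the partial products of a sign sequence
-/

set_option autoImplicit false

namespace Pool.Agent.TH893.FC

open Finset
open Pool.Agent.TH893.CL

variable {l : ℕ → ℝ}

/-- correlation of two windows of the partial products -/
noncomputable def Z (l : ℕ → ℝ) (M H n n' : ℕ) : ℝ := ∑ k ∈ Icc 1 H, F l (n + (M + k)) * F l (n' + (M + k))

/-- correlation of two windows of the sequence -/
noncomputable def W (l : ℕ → ℝ) (H n n' : ℕ) : ℝ := ∑ k ∈ Icc 1 H, l (n + k) * l (n' + k)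

lemma Z_le (hl : ∀ n, l n = 1 ∨ l n = -1) (M H n n' : ℕ) : 2 * |Z l M H n n'| ≤ H + W l H (n + M) (n' + M) + 2 := by
  set f : ℕ → ℝ := fun k => F l (n + (M + k)) * F l (n' + (M + k)) with hf
  have hfb : ∀ k, |f k| = 1 := by
    intro k
    simp only [hf, abs_mul, F_abs hl, one_mul]
  have hshift : ∑ k ∈ Icc 1 H, f (k + 1) = ∑ k ∈ Icc 1 H, f k + f (H + 1) - f 1 := by
    induction H with
    | zero => simp
    | succ H ih =>
      rw [sum_Icc_succ_top (by omega), sum_Icc_succ_top (by omega), ih]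
      ring
  have h2 : 2 * ∑ k ∈ Icc 1 H, f k = ∑ k ∈ Icc 1 H, (f k + f (k + 1)) - (f (H + 1) - f 1) := by
    rw [sum_add_distrib, hshift]; ring
  have h3 : 2 * |Z l M H n n'| = |2 * ∑ k ∈ Icc 1 H, f k| := by
    rw [abs_mul, abs_of_pos (by norm_num : (0:ℝ) < 2)]
    rfl
  rw [h3, h2]
  have h4 := abs_sub (∑ k ∈ Icc 1 H, (f k + f (k + 1))) (f (H + 1) - f 1)
  have h5 := abs_sub (f (H + 1)) (f 1)
  rw [hfb, hfb] at h5
  have h6 : |∑ k ∈ Icc 1 H, (f k + f (k + 1))| ≤ H + W l H (n + M) (n' + M) := by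
    refine (abs_sum_le_sum_abs _ _).trans ?_
    have h7 : ∀ k ∈ Icc 1 H, |f k + f (k + 1)| = 1 + l (n + M + k) * l (n' + M + k) := by
      intro k _
      have h8 : f k + f (k + 1) = f k * (1 + l (n + M + k) * l (n' + M + k)) := by
        simp only [hf]
        have e1 : n + (M + (k + 1)) = n + (M + k) + 1 := by ring
        have e2 : n' + (M + (k + 1)) = n' + (M + k) + 1 := by ring
        rw [e1, e2, F_succ, F_succ]
        simp only [← add_assoc]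
        ring
      rw [h8, abs_mul, hfb, one_mul, abs_of_nonneg]
      rcases hl (n + M + k) with h | h <;> rcases hl (n' + M + k) with h' | h' <;> rw [h, h'] <;> norm_num
    rw [sum_congr rfl h7, sum_add_distrib, sum_const, Nat.card_Icc, Nat.add_sub_cancel, nsmul_eq_mul, mul_one]
    exact le_rfl
  linarith

lemma Z_abs (hl : ∀ n, l n = 1 ∨ l n = -1) (M H n n' : ℕ) : |Z l M H n n'| ≤ H := by
  unfold Z
  refine (abs_sum_le_sum_abs _ _).trans (le_of_eq ?_)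
  rw [sum_congr rfl fun k _ => by rw [abs_mul, F_abs hl, F_abs hl, one_mul], sum_const, Nat.card_Icc,
    Nat.add_sub_cancel, nsmul_eq_mul, mul_one]

/-- mean square of the correlations of two windows -/
lemma W_sq (hl : ∀ n, l n = 1 ∨ l n = -1) {N H : ℕ} {η : ℝ} (hη : 0 ≤ η) (hP : Plus l N H η)
    {Y X : ℕ} (hYX : Y ≤ X) (hX : X ≤ 2 * N) (hL : X ≤ Y + N) :
    ∑ n ∈ Ioc Y X, ∑ n' ∈ Ioc Y X, (W l H n n') ^ 2 ≤ 3 * η * N ^ 2 * H ^ 2 := by
  have h1 : ∑ n ∈ Ioc Y X, ∑ n' ∈ Ioc Y X, (W l H n n') ^ 2 =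
      ∑ k ∈ Icc 1 H, ∑ k' ∈ Icc 1 H, (∑ n ∈ Ioc Y X, l (n + k) * l (n + k')) ^ 2 := by
    have e1 : ∀ n n', (W l H n n') ^ 2 = ∑ k ∈ Icc 1 H, ∑ k' ∈ Icc 1 H,
        (l (n + k) * l (n + k')) * (l (n' + k) * l (n' + k')) := by
      intro n n'
      unfold W
      rw [sq, sum_mul_sum]
      refine sum_congr rfl fun k _ => sum_congr rfl fun k' _ => by ring
    have e2 : ∀ k k', (∑ n ∈ Ioc Y X, l (n + k) * l (n + k')) ^ 2 = ∑ n ∈ Ioc Y X, ∑ n' ∈ Ioc Y X,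
        (l (n + k) * l (n + k')) * (l (n' + k) * l (n' + k')) := by
      intro k k'
      rw [sq, sum_mul_sum]
    simp only [e1, e2]
    rw [sum_congr rfl fun n _ => sum_comm, sum_comm]
    refine sum_congr rfl fun k _ => ?_
    rw [sum_congr rfl fun n _ => sum_comm, sum_comm]
  rw [h1]
  have hN0 : (0:ℝ) ≤ N := Nat.cast_nonneg _
  have hXN : (X:ℝ) ≤ Y + N := by exact_mod_cast hL
  have h2 : ∀ k ∈ Icc 1 H, ∑ k' ∈ Icc 1 H, (∑ n ∈ Ioc Y X, l (n + k) * l (n + k')) ^ 2 ≤ N * (3 * η * N * H) := by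
    intro k _
    have h3 := plus_sum hl hη hP (g := fun n => l (n + k)) (fun n => (l_abs hl _).le) hYX hX
    refine le_trans ?_ (mul_le_mul_of_nonneg_left h3 hN0)
    rw [mul_sum]
    refine sum_le_sum fun k' _ => ?_
    have h4 : |∑ n ∈ Ioc Y X, l (n + k) * l (n + k')| ≤ N := by
      refine (abs_sum_Ioc_le (fun n => ?_) hYX).trans (by linarith)
      rw [abs_mul, l_abs hl, l_abs hl, one_mul]
    rw [← sq_abs, sq]
    exact mul_le_mul_of_nonneg_right h4 (abs_nonneg _)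
  refine (sum_le_sum h2).trans (le_of_eq ?_)
  rw [sum_const, Nat.card_Icc, Nat.add_sub_cancel, nsmul_eq_mul]
  ring

lemma W_abs_sum (hl : ∀ n, l n = 1 ∨ l n = -1) {N H : ℕ} (hH : 1 ≤ H) {η : ℝ} (hη : 0 ≤ η) (hP : Plus l N H η)
    {Y X : ℕ} (hYX : Y ≤ X) (hX : X ≤ 2 * N) (hL : X ≤ Y + N) {κ : ℝ} (hκ : 0 < κ) :
    ∑ n ∈ Ioc Y X, ∑ n' ∈ Ioc Y X, |W l H n n'| ≤ (3 * η / (2 * κ) + κ / 2) * N ^ 2 * H := by
  have hH0 : (0:ℝ) < H := by exact_mod_cast hH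
  have hXN : (X:ℝ) ≤ Y + N := by exact_mod_cast hL
  have hXY : (Y:ℝ) ≤ X := by exact_mod_cast hYX
  have h1 : ∀ n n', |W l H n n'| ≤ (W l H n n') ^ 2 / (2 * κ * H) + κ * H / 2 := by
    intro n n'
    rw [← sq_abs]
    set t := |W l H n n'|
    have h2 : t ^ 2 / (2 * κ * H) + κ * H / 2 - t = (t - κ * H) ^ 2 / (2 * κ * H) := by field_simp; ring
    have h3 : 0 ≤ (t - κ * H) ^ 2 / (2 * κ * H) := by positivity
    linarith
  refine (sum_le_sum fun n _ => sum_le_sum fun n' _ => h1 n n').trans ?_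
  simp only [sum_add_distrib, ← sum_div, sum_const, Nat.card_Ioc, nsmul_eq_mul, Nat.cast_sub hYX]
  have h4 := W_sq hl hη hP hYX hX hL
  have h5 : (∑ n ∈ Ioc Y X, ∑ n' ∈ Ioc Y X, (W l H n n') ^ 2) / (2 * κ * H) ≤ 3 * η * N ^ 2 * H ^ 2 / (2 * κ * H) :=
    div_le_div_of_nonneg_right h4 (by positivity)
  have h6 : ((X:ℝ) - Y) * (((X:ℝ) - Y) * (κ * H / 2)) ≤ N * (N * (κ * H / 2)) := by
    have h7 : (X:ℝ) - Y ≤ N := by linarith
    have h8 : (0:ℝ) ≤ (X:ℝ) - Y := by linarith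
    gcongr
  have h9 : 3 * η * (N:ℝ) ^ 2 * H ^ 2 / (2 * κ * H) = 3 * η / (2 * κ) * N ^ 2 * H := by
    field_simp
  rw [h9] at h5
  have h10 : (3 * η / (2 * κ) + κ / 2) * (N:ℝ) ^ 2 * H = 3 * η / (2 * κ) * N ^ 2 * H + N * (N * (κ * H / 2)) := by ring
  rw [h10]
  linarith

/-- products of numbers close to `1 / 2` -/
lemma prod_le_half {ι : Type*} (s : Finset ι) {x w : ι → ℝ} (hx0 : ∀ i, 0 ≤ x i) (hx1 : ∀ i, x i ≤ 1)
    (hxw : ∀ i, x i ≤ 1 / 2 + w i) (hw : ∀ i, 0 ≤ w i) : ∏ i ∈ s, x i ≤ (1 / 2) ^ s.card + ∑ i ∈ s, w i := by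
  classical
  induction s using Finset.induction_on with
  | empty => simp
  | insert i s hi ih =>
    rw [prod_insert hi, sum_insert hi, card_insert_of_notMem hi]
    have h0 : 0 ≤ ∏ i ∈ s, x i := prod_nonneg fun i _ => hx0 i
    have h1 : ∏ i ∈ s, x i ≤ 1 := prod_le_one (fun i _ => hx0 i) fun i _ => hx1 i
    have hW : 0 ≤ ∑ i ∈ s, w i := sum_nonneg fun i _ => hw i
    have h2 : x i * ∏ i ∈ s, x i ≤ (1 / 2 + w i) * ∏ i ∈ s, x i := mul_le_mul_of_nonneg_right (hxw i) h0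
    have h3 := hw i
    rw [pow_succ]
    nlinarith

/-- the sum over an interval of the products of members of families, with weights -/
noncomputable def T {α : Type*} {m : ℕ} (G : Fin m → α → ℕ → ℝ) (ξ : ℕ → ℂ) (k : Fin m → α) (Y X : ℕ) : ℂ :=
  ∑ n ∈ Ioc Y X, ξ n * ((∏ i, G i (k i) n : ℝ) : ℂ)

/-- The mean square over the members. -/
theorem T_gen {α : Type*} [DecidableEq α] (S : Finset α) {m : ℕ} (G : Fin m → α → ℕ → ℝ) {ξ : ℕ → ℂ}
    (hξ : ∀ n, ‖ξ n‖ ≤ 1) (Y X : ℕ) :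
    ∑ k ∈ Fintype.piFinset (fun _ : Fin m => S), ‖T G ξ k Y X‖ ^ 2 ≤
      ∑ n ∈ Ioc Y X, ∑ n' ∈ Ioc Y X, ∏ i, |∑ s ∈ S, G i s n * G i s n'| := by
  have key : ∑ k ∈ Fintype.piFinset (fun _ : Fin m => S), ((‖T G ξ k Y X‖ ^ 2 : ℝ) : ℂ) =
      ∑ n ∈ Ioc Y X, ∑ n' ∈ Ioc Y X, ξ n * (starRingEnd ℂ) (ξ n') *
        ((∏ i, (∑ s ∈ S, G i s n * G i s n') : ℝ) : ℂ) := by
    have e1 : ∀ k : Fin m → α, ((‖T G ξ k Y X‖ ^ 2 : ℝ) : ℂ) = ∑ n ∈ Ioc Y X, ∑ n' ∈ Ioc Y X,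
        ξ n * (starRingEnd ℂ) (ξ n') * ((∏ i, (G i (k i) n * G i (k i) n') : ℝ) : ℂ) := by
      intro k
      have h1 : ((‖T G ξ k Y X‖ ^ 2 : ℝ) : ℂ) = T G ξ k Y X * (starRingEnd ℂ) (T G ξ k Y X) := by
        rw [Complex.mul_conj, Complex.normSq_eq_norm_sq]
      rw [h1]
      unfold T
      rw [map_sum, sum_mul_sum]
      refine sum_congr rfl fun n _ => sum_congr rfl fun n' _ => ?_
      rw [map_mul, Complex.conj_ofReal, prod_mul_distrib]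
      push_cast
      ring
    simp only [e1]
    rw [sum_comm]
    refine sum_congr rfl fun n _ => ?_
    rw [sum_comm]
    refine sum_congr rfl fun n' _ => ?_
    rw [← mul_sum]
    congr 1
    rw [← Complex.ofReal_sum]
    congr 1
    have e2 := Finset.prod_univ_sum (fun _ : Fin m => S) (fun i k => G i k n * G i k n')
    rw [e2]
  have h2 : ‖∑ k ∈ Fintype.piFinset (fun _ : Fin m => S), ((‖T G ξ k Y X‖ ^ 2 : ℝ) : ℂ)‖ ≤
      ∑ n ∈ Ioc Y X, ∑ n' ∈ Ioc Y X, ∏ i, |∑ s ∈ S, G i s n * G i s n'| := by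
    rw [key]
    refine (norm_sum_le _ _).trans (sum_le_sum fun n _ => (norm_sum_le _ _).trans (sum_le_sum fun n' _ => ?_))
    rw [norm_mul, norm_mul, Complex.norm_real, Real.norm_eq_abs, abs_prod, RCLike.norm_conj]
    have h3 : ‖ξ n‖ * ‖ξ n'‖ ≤ 1 := mul_le_one₀ (hξ n) (norm_nonneg _) (hξ n')
    have h4 : 0 ≤ ∏ i, |∑ s ∈ S, G i s n * G i s n'| := prod_nonneg fun _ _ => abs_nonneg _
    nlinarith
  rw [← Complex.ofReal_sum, Complex.norm_real, Real.norm_eq_abs] at h2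
  exact (le_abs_self _).trans h2

/-- sum of the products of the correlations of two windows -/
lemma Z_prod_sum (hl : ∀ n, l n = 1 ∨ l n = -1) {N H : ℕ} (hH : 1 ≤ H) {η : ℝ} (hη : 0 ≤ η) (hP : Plus l N H η)
    {Y X : ℕ} (hYX : Y ≤ X) (hX : X ≤ N) {κ : ℝ} (hκ : 0 < κ) {ι : Type*} (s : Finset ι) {M : ι → ℕ}
    (hM : ∀ i, M i ≤ N) :
    ∑ n ∈ Ioc Y X, ∑ n' ∈ Ioc Y X, ∏ i ∈ s, |Z l (M i) H n n'| ≤
      (H:ℝ) ^ s.card * ((1 / 2) ^ s.card * ((X:ℝ) - Y) ^ 2 + s.card * (3 * η / (4 * κ) + κ / 4 + 1 / H) * N ^ 2) := by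
  have hH0 : (0:ℝ) < H := by exact_mod_cast hH
  have hXN : (X:ℝ) ≤ N := by exact_mod_cast hX
  have hY0 : (0:ℝ) ≤ Y := Nat.cast_nonneg _
  have hXY : (Y:ℝ) ≤ X := by exact_mod_cast hYX
  have h1 : ∀ n n', ∏ i ∈ s, |Z l (M i) H n n'| ≤ (H:ℝ) ^ s.card * ((1 / 2) ^ s.card +
      ∑ i ∈ s, (|W l H (n + M i) (n' + M i)| / (2 * H) + 1 / H)) := by
    intro n n'
    have h2 : ∀ i, |Z l (M i) H n n'| / H ≤ 1 := fun i => by rw [div_le_one hH0]; exact Z_abs hl _ H n n'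
    have h3 : ∀ i, |Z l (M i) H n n'| / H ≤ 1 / 2 + (|W l H (n + M i) (n' + M i)| / (2 * H) + 1 / H) := by
      intro i
      rw [div_le_iff₀ hH0]
      have h4 := Z_le hl (M i) H n n'
      have h5 := le_abs_self (W l H (n + M i) (n' + M i))
      have h6 : (1 / 2 + (|W l H (n + M i) (n' + M i)| / (2 * H) + 1 / H)) * H =
          H / 2 + |W l H (n + M i) (n' + M i)| / 2 + 1 := by
        field_simp
        ring
      rw [h6]
      linarith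
    have h4 := prod_le_half s (fun i => by positivity) h2 h3 (fun i => by positivity)
    rw [prod_div_distrib, prod_const, div_le_iff₀ (by positivity)] at h4
    linarith
  refine (sum_le_sum fun n _ => sum_le_sum fun n' _ => h1 n n').trans ?_
  simp only [← mul_sum]
  refine mul_le_mul_of_nonneg_left ?_ (by positivity)
  simp only [sum_add_distrib, sum_const, Nat.card_Ioc, nsmul_eq_mul, Nat.cast_sub hYX]
  have h5 : ∀ i ∈ s, ∑ n ∈ Ioc Y X, ∑ n' ∈ Ioc Y X, |W l H (n + M i) (n' + M i)| / (2 * H) ≤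
      (3 * η / (4 * κ) + κ / 4) * N ^ 2 := by
    intro i _
    have h6 := W_abs_sum hl hH hη hP (Y := Y + M i) (X := X + M i) (by omega) (by have := hM i; omega) (by omega) hκ
    have h7 : ∑ n ∈ Ioc (Y + M i) (X + M i), ∑ n' ∈ Ioc (Y + M i) (X + M i), |W l H n n'| =
        ∑ n ∈ Ioc Y X, ∑ n' ∈ Ioc Y X, |W l H (n + M i) (n' + M i)| := by
      rw [← Finset.image_add_right_Ioc, sum_image (fun x _ y _ h => by simpa using h)]
      refine sum_congr rfl fun n _ => ?_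
      rw [sum_image (fun x _ y _ h => by simpa using h)]
    rw [h7] at h6
    simp only [← sum_div]
    rw [div_le_iff₀ (by positivity)]
    refine h6.trans (le_of_eq ?_)
    field_simp
    ring
  have h8 : ∑ n ∈ Ioc Y X, ∑ n' ∈ Ioc Y X, ∑ i ∈ s, |W l H (n + M i) (n' + M i)| / (2 * H) ≤
      s.card * ((3 * η / (4 * κ) + κ / 4) * N ^ 2) := by
    rw [sum_congr rfl fun n _ => sum_comm, sum_comm]
    refine (sum_le_sum h5).trans (le_of_eq ?_)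
    rw [sum_const, nsmul_eq_mul]
  have h9 : ((X:ℝ) - Y) * (((X:ℝ) - Y) * ((s.card : ℝ) * (1 / H))) ≤ (s.card : ℝ) * (1 / H * N ^ 2) := by
    have h8 : ((X:ℝ) - Y) * ((X:ℝ) - Y) ≤ N * N := by
      have h7 : (X:ℝ) - Y ≤ N := by linarith
      have h8 : (0:ℝ) ≤ (X:ℝ) - Y := by linarith
      gcongr
    have h9 : (0:ℝ) ≤ (s.card : ℝ) * (1 / H) := by positivity
    nlinarith
  nlinarith

/-- a product of two partial products, in two windows -/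
def G2 (l : ℕ → ℝ) (M M' : ℕ) (p : ℕ × ℕ) (n : ℕ) : ℝ := F l (n + (M + p.1)) * F l (n + (M' + p.2))

lemma G2_abs (hl : ∀ n, l n = 1 ∨ l n = -1) (M M' : ℕ) (p : ℕ × ℕ) (n : ℕ) : |G2 l M M' p n| ≤ 1 := by
  unfold G2
  rw [abs_mul, F_abs hl, F_abs hl, one_mul]

lemma G2_sum (l : ℕ → ℝ) (M M' H n n' : ℕ) :
    ∑ s ∈ Icc 1 H ×ˢ Icc 1 H, G2 l M M' s n * G2 l M M' s n' = Z l M H n n' * Z l M' H n n' := by
  unfold Z G2
  rw [sum_product, sum_mul_sum]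
  refine sum_congr rfl fun k _ => sum_congr rfl fun k' _ => by ring

theorem T2_sq (hl : ∀ n, l n = 1 ∨ l n = -1) {N H : ℕ} (hH : 1 ≤ H) {η : ℝ} (hη : 0 ≤ η) (hP : Plus l N H η)
    {Y X : ℕ} (hYX : Y ≤ X) (hX : X ≤ N) {κ : ℝ} (hκ : 0 < κ) {r : ℕ} {M M' : Fin r → ℕ} (hM : ∀ i, M i ≤ N)
    (hM' : ∀ i, M' i ≤ N) {ξ : ℕ → ℂ} (hξ : ∀ n, ‖ξ n‖ ≤ 1) :
    ∑ k ∈ Fintype.piFinset (fun _ : Fin r => Icc 1 H ×ˢ Icc 1 H), ‖T (fun i => G2 l (M i) (M' i)) ξ k Y X‖ ^ 2 ≤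
      (H:ℝ) ^ (2 * r) * ((1 / 2) ^ (2 * r) * ((X:ℝ) - Y) ^ 2 +
        ((2 * r : ℕ) : ℝ) * (3 * η / (4 * κ) + κ / 4 + 1 / H) * N ^ 2) := by
  refine (T_gen (Icc 1 H ×ˢ Icc 1 H) (fun i => G2 l (M i) (M' i)) hξ Y X).trans ?_
  have h1 := Z_prod_sum hl hH hη hP hYX hX hκ (univ : Finset (Fin r ⊕ Fin r)) (M := Sum.elim M M') (by
    rintro (i | i)
    · exact hM i
    · exact hM' i)
  rw [card_univ, Fintype.card_sum, Fintype.card_fin, ← two_mul] at h1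
  refine le_trans (le_of_eq ?_) h1
  refine sum_congr rfl fun n _ => sum_congr rfl fun n' _ => ?_
  rw [Fintype.prod_sum_type, ← prod_mul_distrib]
  refine prod_congr rfl fun i _ => ?_
  simp only [G2_sum, abs_mul, Sum.elim_inl, Sum.elim_inr]

end Pool.Agent.TH893.FC
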