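import Pool.Agent.TH893.FC.Main

set_option autoImplicit false

namespace Pool.Agent.TH893.FC

open Finset
open Pool.Agent.TH893.CL

/-- a block of consecutive terms -/
noncomputable def blk (a b u v n : ℕ) : ℝ :=
  ∏ j ∈ Ico (min u v) (max u v), (-1 : ℝ) ^ ArithmeticFunction.cardFactors (a * (n + j) + b)

lemma blk_of_le (a b : ℕ) {u v : ℕ} (h : u ≤ v) (n : ℕ) : blk a b u v n = F (lr a b) (n + u) * F (lr a b) (n + v) := by
  unfold blk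
  rw [min_eq_left h, max_eq_right h, prod_Ico_eq_prod_range]
  obtain ⟨d, rfl⟩ := Nat.exists_eq_add_of_le h
  rw [Nat.add_sub_cancel_left]
  have h1 : F (lr a b) (n + (u + d)) = F (lr a b) (n + u) * ∏ j ∈ range d, lr a b (n + u + j) := by
    unfold F
    rw [← add_assoc, prod_range_add]
  rw [h1, ← mul_assoc, F_mul_self (lr_pm a b), one_mul]
  refine prod_congr rfl fun j _ => ?_
  unfold lr
  rw [← add_assoc]

lemma blk_eq (a b u v n : ℕ) : blk a b u v n = F (lr a b) (n + u) * F (lr a b) (n + v) := by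
  rcases le_total u v with h | h
  · exact blk_of_le a b h n
  · rw [mul_comm, ← blk_of_le a b h n]
    unfold blk
    rw [min_comm, max_comm]

lemma fac_eq (n : ℕ) : F (lr 1 0) (n + 1) = (-1 : ℝ) ^ ArithmeticFunction.cardFactors (n.factorial) := by
  induction n with
  | zero => simp [F, lr]
  | succ n ih =>
    rw [F_succ, ih, Nat.factorial_succ, ArithmeticFunction.cardFactors_mul (by omega) (Nat.factorial_ne_zero n), pow_add]
    unfold lr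
    rw [one_mul, add_zero]
    ring

/-- The mean square for one interval. -/
theorem mean2 {a : ℕ} (ha : 1 ≤ a) (r : ℕ) {ε : ℝ} (hε : 0 < ε) : ∃ H₀ N₀ : ℕ, ∀ N H : ℕ, N₀ ≤ N → H₀ ≤ H → H ≤ N →
    ∀ b : ℕ, b ≤ N → ∀ M M' : Fin r → ℕ, (∀ i, M i ≤ N) → (∀ i, M' i ≤ N) → ∀ ξ : ℕ → ℂ, (∀ n, ‖ξ n‖ ≤ 1) →
    ∀ Y X : ℕ, Y ≤ X → X ≤ N →
    ∑ k ∈ Fintype.piFinset (fun _ : Fin r => Icc 1 H ×ˢ Icc 1 H),
        ‖T (fun i => G2 (lr a b) (M i) (M' i)) ξ k Y X‖ ^ 2 ≤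
      (H:ℝ) ^ (2 * r) * ((1 / 4) ^ r * ((X:ℝ) - Y) ^ 2 + ε * N ^ 2) := by
  set c : ℝ := 2 * (r:ℝ) + 1 with hc
  have hc0 : 0 < c := by positivity
  set κ : ℝ := ε / c with hκ
  have hκ0 : 0 < κ := by positivity
  set η : ℝ := κ * ε / (3 * c) with hη
  have hη0 : 0 < η := by positivity
  obtain ⟨H₀, N₀, h⟩ := plus_minus ha hη0
  refine ⟨max H₀ (max 1 ⌈2 * c / ε⌉₊), N₀, ?_⟩
  intro N H hN hH hHN b hb M M' hM hM' ξ hξ Y X hYX hX
  have hH1 : 1 ≤ H := (le_max_left _ _).trans ((le_max_right _ _).trans hH)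
  have hH2 : 2 * c / ε ≤ H := (Nat.le_ceil _).trans (by exact_mod_cast (le_max_right _ _).trans ((le_max_right _ _).trans hH))
  have hH0 : (0:ℝ) < H := by exact_mod_cast hH1
  obtain ⟨hP, _⟩ := h N H hN ((le_max_left _ _).trans hH) hHN b hb
  refine (T2_sq (lr_pm a b) hH1 hη0.le hP hYX hX hκ0 hM hM' hξ).trans ?_
  refine mul_le_mul_of_nonneg_left ?_ (by positivity)
  have h1 : ((1:ℝ) / 2) ^ (2 * r) = (1 / 4) ^ r := by rw [pow_mul]; norm_num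
  rw [h1]
  have h2 : 3 * η / (4 * κ) = ε / (4 * c) := by
    rw [hη]
    field_simp
  have h3 : 1 / (H:ℝ) ≤ ε / (2 * c) := by
    rw [div_le_iff₀ hH0]
    rw [div_le_iff₀ hε] at hH2
    rw [div_mul_eq_mul_div, le_div_iff₀ (by positivity)]
    linarith
  have h4 : 3 * η / (4 * κ) + κ / 4 + 1 / H ≤ ε / c := by
    rw [h2, hκ]
    have h5 : ε / c = ε / (4 * c) + ε / c / 4 + ε / (2 * c) := by field_simp; ring
    linarith
  have h5 : ((2 * r : ℕ) : ℝ) * (3 * η / (4 * κ) + κ / 4 + 1 / H) ≤ ε := by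
    have h6 : ((2 * r : ℕ) : ℝ) ≤ c := by rw [hc]; push_cast; linarith
    have h7 : 0 ≤ 3 * η / (4 * κ) + κ / 4 + 1 / H := by positivity
    calc ((2 * r : ℕ) : ℝ) * (3 * η / (4 * κ) + κ / 4 + 1 / H) ≤ c * (ε / c) := mul_le_mul h6 h4 h7 hc0.le
      _ = ε := by field_simp
  have h6 := mul_le_mul_of_nonneg_right h5 (by positivity : (0:ℝ) ≤ (N:ℝ) ^ 2)
  linarith

open Classical in
/-- All the intervals simultaneously. -/
theorem unif2 {a : ℕ} (ha : 1 ≤ a) {δ : ℝ} (hδ : 0 < δ) (hδ1 : δ ≤ 1) {r : ℕ} (hr : 20000 ≤ 4 ^ r * δ ^ 5) :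
    ∃ H₀ N₀ : ℕ, ∀ N H : ℕ, N₀ ≤ N → H₀ ≤ H → H ≤ N →
    ∀ b : ℕ, b ≤ N → ∀ M M' : Fin r → ℕ, (∀ i, M i ≤ N) → (∀ i, M' i ≤ N) → ∀ ξ : ℕ → ℂ, (∀ n, ‖ξ n‖ ≤ 1) →
    (((Fintype.piFinset (fun _ : Fin r => Icc 1 H ×ˢ Icc 1 H)).filter (fun k => ¬ ∀ Y X : ℕ, Y ≤ X → X ≤ N →
      ‖T (fun i => G2 (lr a b) (M i) (M' i)) ξ k Y X‖ ≤ δ * N)).card : ℝ) ≤ δ * (H:ℝ) ^ (2 * r) := by
  obtain ⟨H₀, N₀, h⟩ := mean2 ha r (by positivity : 0 < δ ^ 5 / 20000)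
  refine ⟨H₀, max N₀ ⌈8 / δ⌉₊, ?_⟩
  intro N H hN hH hHN b hb M M' hM hM' ξ hξ
  have hN2 : 8 / δ ≤ N := (Nat.le_ceil _).trans (by exact_mod_cast (le_max_right _ _).trans hN)
  have hN3 : 8 ≤ δ * N := by rw [div_le_iff₀ hδ] at hN2; linarith
  have hr2 : (1 / 4 : ℝ) ^ r ≤ δ ^ 5 / 20000 := by
    rw [one_div, inv_pow, inv_le_comm₀ (by positivity) (by positivity), inv_div, div_le_iff₀ (by positivity)]
    exact hr
  refine unif (fun i s n => G2_abs (lr_pm a b) _ _ _ _) _ hδ hδ1 (by positivity) (ρ := δ ^ 5 / 10000) ?_ hN3 hξ ?_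
  · have : 0 < δ ^ 5 := by positivity
    linarith
  · intro Y X hYX hX
    refine (h N H ((le_max_left _ _).trans hN) hH hHN b hb M M' hM hM' ξ hξ Y X hYX hX).trans ?_
    refine mul_le_mul_of_nonneg_left ?_ (by positivity)
    have hXN : (X:ℝ) ≤ N := by exact_mod_cast hX
    have hY0 : (0:ℝ) ≤ Y := Nat.cast_nonneg _
    have hXY : (Y:ℝ) ≤ X := by exact_mod_cast hYX
    have h1 : ((X:ℝ) - Y) ^ 2 ≤ (N:ℝ) ^ 2 := pow_le_pow_left₀ (by linarith) (by linarith) 2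
    have h2 : (1 / 4 : ℝ) ^ r * ((X:ℝ) - Y) ^ 2 ≤ δ ^ 5 / 20000 * (N:ℝ) ^ 2 :=
      mul_le_mul hr2 h1 (by positivity) (by positivity)
    linarith

lemma T_blk (a b : ℕ) {r : ℕ} (M M' : Fin r → ℕ) (ξ : ℕ → ℂ) (k : Fin r → ℕ × ℕ) (Y X : ℕ) :
    T (fun i => G2 (lr a b) (M i) (M' i)) ξ k Y X =
      ∑ n ∈ Ioc Y X, ξ n * ((∏ i, blk a b (M i + (k i).1) (M' i + (k i).2) n : ℝ) : ℂ) := by
  unfold T
  refine sum_congr rfl fun n _ => ?_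
  congr 2
  refine prod_congr rfl fun i _ => ?_
  rw [blk_eq]
  rfl

end Pool.Agent.TH893.FC
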