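import Pool.Agent.TH893.FC.Core

set_option autoImplicit false

namespace Pool.Agent.TH893.FC

open Finset
open Pool.Agent.TH893.CL

lemma T_norm_le {α : Type*} {m : ℕ} {G : Fin m → α → ℕ → ℝ} (hG : ∀ i s n, |G i s n| ≤ 1) {ξ : ℕ → ℂ}
    (hξ : ∀ n, ‖ξ n‖ ≤ 1) (k : Fin m → α) {Y X : ℕ} (hYX : Y ≤ X) : ‖T G ξ k Y X‖ ≤ (X:ℝ) - Y := by
  unfold T
  refine (norm_sum_le _ _).trans ?_
  have h1 : ∀ n ∈ Ioc Y X, ‖ξ n * ((∏ i, G i (k i) n : ℝ) : ℂ)‖ ≤ 1 := by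
    intro n _
    rw [norm_mul, Complex.norm_real, Real.norm_eq_abs, abs_prod]
    refine mul_le_one₀ (hξ n) (by positivity) ?_
    exact prod_le_one (fun _ _ => abs_nonneg _) fun i _ => hG _ _ _
  refine (sum_le_sum h1).trans (le_of_eq ?_)
  rw [sum_const, Nat.card_Ioc, nsmul_eq_mul, mul_one, Nat.cast_sub hYX]

lemma T_split {α : Type*} {m : ℕ} {G : Fin m → α → ℕ → ℝ} (hG : ∀ i s n, |G i s n| ≤ 1) {ξ : ℕ → ℂ}
    (hξ : ∀ n, ‖ξ n‖ ≤ 1) (k : Fin m → α) {Y X a b : ℕ} (ha : a ≤ Y) (hab : a ≤ b) (hYX : Y ≤ X) (hb : b ≤ X) :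
    ‖T G ξ k Y X‖ ≤ ‖T G ξ k a b‖ + ((Y:ℝ) - a) + ((X:ℝ) - b) := by
  have h1 : T G ξ k a Y + T G ξ k Y X = T G ξ k a X := by
    unfold T; exact sum_Ioc_consecutive _ ha hYX
  have h2 : T G ξ k a b + T G ξ k b X = T G ξ k a X := by
    unfold T; exact sum_Ioc_consecutive _ hab hb
  have h3 := T_norm_le hG hξ k ha
  have h4 := T_norm_le hG hξ k hb
  have h5 : T G ξ k Y X = T G ξ k a b + T G ξ k b X - T G ξ k a Y := by
    rw [h2, ← h1]; ring
  rw [h5]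
  have h6 := norm_sub_le (T G ξ k a b + T G ξ k b X) (T G ξ k a Y)
  have h7 := norm_add_le (T G ξ k a b) (T G ξ k b X)
  linarith

open Classical in
/-- From mean squares for single intervals to all the intervals simultaneously. -/
theorem unif {α : Type*} {m : ℕ} {G : Fin m → α → ℕ → ℝ} (hG : ∀ i s n, |G i s n| ≤ 1) (P : Finset (Fin m → α)) {δ ρ V : ℝ}
    (hδ : 0 < δ) (hδ1 : δ ≤ 1) (hV : 0 ≤ V) (hρ : ρ * (24 ^ 2 * 16) ≤ δ ^ 5) {N : ℕ} (hN : 8 ≤ δ * N)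
    {ξ : ℕ → ℂ} (hξ : ∀ n, ‖ξ n‖ ≤ 1)
    (h : ∀ Y X : ℕ, Y ≤ X → X ≤ N → ∑ k ∈ P, ‖T G ξ k Y X‖ ^ 2 ≤ V * (ρ * (N:ℝ) ^ 2)) :
    ((P.filter (fun k => ¬ ∀ Y X : ℕ, Y ≤ X → X ≤ N → ‖T G ξ k Y X‖ ≤ δ * N)).card : ℝ) ≤ δ * V := by
  have hN0 : (0:ℝ) < N := by
    by_contra hcon
    push Not at hcon
    nlinarith
  set d : ℝ := δ / 8 with hd
  have hd0 : 0 < d := by positivity
  set J : ℕ := ⌊1 / d⌋₊ with hJ
  set q : ℕ := ⌊d * N⌋₊ + 1 with hq
  have hq1 : d * N < q := by rw [hq]; push_cast; exact Nat.lt_floor_add_one _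
  have hq2 : (q:ℝ) ≤ 2 * (d * N) := by
    rw [hq]; push_cast
    have := Nat.floor_le (by positivity : 0 ≤ d * N)
    have : 1 ≤ d * N := by rw [hd]; linarith
    linarith
  have hq0 : 0 < q := by omega
  set U : Finset (ℕ × ℕ) := (range (J + 1)) ×ˢ (range (J + 1)) with hU
  have hUc : (U.card : ℝ) ≤ (12 / δ) ^ 2 := by
    rw [hU, card_product, card_range]
    push_cast
    have h1 : (J:ℝ) ≤ 8 / δ := by
      rw [hJ]
      refine (Nat.floor_le (by positivity)).trans (le_of_eq ?_)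
      rw [hd]; field_simp
    have h2 : (1:ℝ) ≤ 1 / δ := by rw [le_div_iff₀ hδ]; linarith
    have h3 : (J:ℝ) + 1 ≤ 12 / δ := by
      have h4 : (12:ℝ) / δ = 8 / δ + 4 * (1 / δ) := by ring
      rw [h4]; linarith
    have h5 : (0:ℝ) ≤ (J:ℝ) + 1 := by positivity
    calc ((J:ℝ) + 1) * ((J:ℝ) + 1) ≤ (12 / δ) * (12 / δ) := mul_le_mul h3 h3 h5 (by positivity)
      _ = _ := by ring
  -- single intervals of the grid
  set B : ℕ × ℕ → Finset (Fin m → α) := fun t => P.filter (fun k => t.1 ≤ t.2 ∧ t.2 * q ≤ N ∧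
    δ / 2 * N < ‖T G ξ k (t.1 * q) (t.2 * q)‖) with hB
  have hBc : ∀ t ∈ U, ((B t).card : ℝ) ≤ V * (4 * ρ / δ ^ 2) := by
    intro t _
    by_cases h1 : t.1 ≤ t.2 ∧ t.2 * q ≤ N
    · have h2 := h (t.1 * q) (t.2 * q) (Nat.mul_le_mul_right q h1.1) h1.2
      have h3 : ((B t).card : ℝ) * (δ / 2 * N) ^ 2 ≤ ∑ k ∈ P, ‖T G ξ k (t.1 * q) (t.2 * q)‖ ^ 2 := by
        calc ((B t).card : ℝ) * (δ / 2 * N) ^ 2 = ∑ k ∈ B t, (δ / 2 * N) ^ 2 := by
              rw [sum_const, nsmul_eq_mul]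
          _ ≤ ∑ k ∈ B t, ‖T G ξ k (t.1 * q) (t.2 * q)‖ ^ 2 := by
              refine sum_le_sum fun k hk => ?_
              have h4 := (mem_filter.1 hk).2.2.2
              exact pow_le_pow_left₀ (by positivity) h4.le 2
          _ ≤ _ := sum_le_sum_of_subset_of_nonneg (filter_subset _ _) fun _ _ _ => by positivity
      have h5 := h3.trans h2
      have h6 : V * (4 * ρ / δ ^ 2) * (δ / 2 * N) ^ 2 = V * (ρ * (N:ℝ) ^ 2) := by
        field_simp
        ring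
      rw [← h6] at h5
      exact le_of_mul_le_mul_right h5 (by positivity)
    · have h2 : B t = ∅ := by
        rw [hB]
        apply filter_eq_empty_iff.2
        intro k _ hk
        exact h1 ⟨hk.1, hk.2.1⟩
      have h3 := h 0 0 le_rfl (Nat.zero_le _)
      have h4 : 0 ≤ ∑ k ∈ P, ‖T G ξ k 0 0‖ ^ 2 := sum_nonneg fun _ _ => by positivity
      have h5 : 0 ≤ V * ρ := by
        have h6 : 0 ≤ V * ρ * (N:ℝ) ^ 2 := by linarith [h4.trans h3]
        exact nonneg_of_mul_nonneg_left h6 (by positivity)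
      rw [h2, card_empty, Nat.cast_zero]
      have h6 : V * (4 * ρ / δ ^ 2) = V * ρ * (4 / δ ^ 2) := by ring
      rw [h6]
      positivity
  have hsub : P.filter (fun k => ¬ ∀ Y X : ℕ, Y ≤ X → X ≤ N → ‖T G ξ k Y X‖ ≤ δ * N) ⊆ U.biUnion B := by
    intro k hk
    rw [mem_filter] at hk
    obtain ⟨hkP, hk⟩ := hk
    by_contra hno
    apply hk
    intro Y X hYX hX
    set i := Y / q
    set i' := X / q
    have hi : i * q ≤ Y := Nat.div_mul_le_self _ _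
    have hi' : i' * q ≤ X := Nat.div_mul_le_self _ _
    have hii : i ≤ i' := Nat.div_le_div_right hYX
    have hiY : Y < i * q + q := Nat.lt_div_mul_add hq0 (a := Y)
    have hiX : X < i' * q + q := Nat.lt_div_mul_add hq0 (a := X)
    have hJ' : i' ≤ J := by
      rw [hJ]
      apply Nat.le_floor
      rw [le_div_iff₀ hd0]
      have h1 : ((i' * q : ℕ) : ℝ) ≤ N := by exact_mod_cast hi'.trans hX
      push_cast at h1
      have h2 : (i':ℝ) * (d * N) ≤ i' * q := mul_le_mul_of_nonneg_left hq1.le (by positivity)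
      have h3 : ((i':ℝ) * d) * N ≤ 1 * N := by linarith
      exact le_of_mul_le_mul_right h3 hN0
    have hgrid : ‖T G ξ k (i * q) (i' * q)‖ ≤ δ / 2 * N := by
      by_contra hcon
      push Not at hcon
      apply hno
      rw [mem_biUnion]
      refine ⟨(i, i'), ?_, ?_⟩
      · rw [hU]
        simp only [mem_product, mem_range]
        omega
      · simp only [hB, mem_filter]
        exact ⟨hkP, hii, hi'.trans hX, hcon⟩
    have h1 := T_split hG hξ k hi (Nat.mul_le_mul_right q hii) hYX hi'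
    have h3 : (Y:ℝ) - ((i * q : ℕ) : ℝ) ≤ q := by
      have : (Y:ℝ) < ((i * q + q : ℕ) : ℝ) := by exact_mod_cast hiY
      push_cast at this ⊢
      linarith
    have h4 : (X:ℝ) - ((i' * q : ℕ) : ℝ) ≤ q := by
      have : (X:ℝ) < ((i' * q + q : ℕ) : ℝ) := by exact_mod_cast hiX
      push_cast at this ⊢
      linarith
    have h5 : 2 * (q:ℝ) ≤ δ / 2 * N := by
      have : 2 * (2 * (d * N)) = δ / 2 * N := by rw [hd]; ring
      linarith
    linarith
  have hcard : ((P.filter (fun k => ¬ ∀ Y X : ℕ, Y ≤ X → X ≤ N → ‖T G ξ k Y X‖ ≤ δ * N)).card : ℝ) ≤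
      ∑ t ∈ U, ((B t).card : ℝ) := by
    have h1 := (card_le_card hsub).trans card_biUnion_le
    exact_mod_cast h1
  refine hcard.trans ((sum_le_sum hBc).trans ?_)
  rw [sum_const, nsmul_eq_mul]
  rcases le_total 0 ρ with hρ0 | hρ0
  · have h1 : (U.card : ℝ) * (V * (4 * ρ / δ ^ 2)) ≤ (12 / δ) ^ 2 * (V * (4 * ρ / δ ^ 2)) :=
      mul_le_mul_of_nonneg_right hUc (by positivity)
    refine h1.trans ?_
    have h2 : (12 / δ) ^ 2 * (V * (4 * ρ / δ ^ 2)) = (576 * ρ / δ ^ 4) * V := by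
      field_simp
      ring
    rw [h2]
    refine mul_le_mul_of_nonneg_right ?_ hV
    rw [div_le_iff₀ (by positivity)]
    have h3 : δ * δ ^ 4 = δ ^ 5 := by ring
    rw [h3]
    nlinarith
  · have h1 : (U.card : ℝ) * (V * (4 * ρ / δ ^ 2)) ≤ 0 := by
      have h2 : V * (4 * ρ / δ ^ 2) ≤ 0 := by
        have h3 : V * (4 * ρ / δ ^ 2) = (V * (4 / δ ^ 2)) * ρ := by ring
        rw [h3]
        exact mul_nonpos_of_nonneg_of_nonpos (by positivity) hρ0
      exact mul_nonpos_of_nonneg_of_nonpos (by positivity) h2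
    exact h1.trans (by positivity)

end Pool.Agent.TH893.FC
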