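import Pool.Agent.TH893.FC.Wt
import Pool.Agent.TH893.FC.Main
import Pool.Agent.TH823.Fam.Fam1

/-!
# Long windows: savings of powers of the logarithm, unbounded weights
-/

set_option autoImplicit false

namespace Pool.Agent.TH893.FC

open Finset
open Pool.Agent.TH893.CL
open Pool.Agent.H373R2.T7 (exI energy liR liR_norm sup_liou)

lemma energy_one (H : ℕ) (s : ℕ → ℤ) (hs : Function.Injective s) : energy 1 H s ≤ H := by
  unfold energy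
  have h1 : (Icc 1 H).card = H := by rw [Nat.card_Icc, Nat.add_sub_cancel]
  conv_rhs => rw [← h1]
  apply card_le_card_of_injOn (fun q => q.1 0)
  · intro q hq
    have h2 := (mem_filter.1 hq).1
    rw [mem_product, Fintype.mem_piFinset] at h2
    exact h2.1 0
  · intro q hq q' hq' h
    have e1 := (mem_filter.1 hq).2
    have e2 := (mem_filter.1 hq').2
    simp only [univ_unique, Fin.default_eq_zero, Fin.isValue, sum_singleton] at e1 e2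
    simp only at h
    rw [h] at e1
    rw [e1] at e2
    have h3 := hs e2
    apply Prod.ext
    · funext i
      rw [Subsingleton.elim i 0]
      exact h
    · funext i
      rw [Subsingleton.elim i 0]
      exact h3

/-- Davenport's bound for almost all shifts, arbitrary weights. -/
theorem plus_log (B C T U : ℕ) : ∃ N₀ : ℕ, ∀ N H : ℕ, N₀ ≤ N → H ≤ N → (N:ℝ) ≤ Real.log N ^ C * H →
    ∀ M : ℕ, M ≤ B * N → ∀ g : ℕ → ℝ, (∀ n, 1 ≤ n → n ≤ B * N → |g n| ≤ Real.log N ^ T) →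
    num (Icc 1 H) (fun k => ¬ ∀ X : ℕ, X ≤ B * N → |∑ n ∈ Icc 1 X, g n * lr 1 0 (n + M + k)| ≤ N / Real.log N ^ U) ≤
      H / Real.log N ^ U := by
  classical
  obtain ⟨N₀, h0⟩ := Pool.Agent.TH823.Fam.fam_all liR liR_norm sup_liou 1 (B + 1) C T U
  refine ⟨max N₀ 3, fun N H hN hHN hC M hM g hg => ?_⟩
  have hN3 : 3 ≤ N := (le_max_right _ _).trans hN
  have hN0 : (0:ℝ) < N := by exact_mod_cast (by omega : 0 < N)
  have hlog1 : 1 ≤ Real.log N := by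
    rw [Real.le_log_iff_exp_le hN0]
    have : (3:ℝ) ≤ N := by exact_mod_cast hN3
    linarith [Real.exp_one_lt_d9]
  have hH0 : (0:ℝ) ≤ H := Nat.cast_nonneg _
  have hs : ∀ m ∈ Icc 1 H, |((M:ℤ) + (m:ℤ))| ≤ ((B + 1 : ℕ) : ℤ) * N := by
    intro m hm
    have h1 := (mem_Icc.1 hm).2
    rw [abs_of_nonneg (by positivity)]
    push_cast
    have h2 : (M:ℤ) ≤ B * N := by exact_mod_cast hM
    have h3 : (m:ℤ) ≤ N := by exact_mod_cast h1.trans hHN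
    linarith
  have hE : (energy 1 H (fun m => (M:ℤ) + (m:ℤ)) : ℝ) * N ≤ Real.log N ^ C * (H : ℝ) ^ (2 * 1) := by
    have h1 : (energy 1 H (fun m => (M:ℤ) + (m:ℤ)) : ℝ) ≤ H := by
      exact_mod_cast energy_one H _ (fun x y h => by
        have h' : (M:ℤ) + x = M + y := h
        omega)
    have h2 : (energy 1 H (fun m => (M:ℤ) + (m:ℤ)) : ℝ) * N ≤ H * (Real.log N ^ C * H) :=
      mul_le_mul h1 hC hN0.le hH0
    refine h2.trans (le_of_eq ?_)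
    ring
  have h1 := h0 N ((le_max_left _ _).trans hN) H (fun m => (M:ℤ) + (m:ℤ)) hs hE 1
    (by rw [Nat.cast_one]; exact one_le_pow₀ hlog1) (fun _ => 1)
    (fun _ n => if n ≤ B * N then ((g n : ℝ) : ℂ) else 0) (fun _ _ => le_rfl) (by
      intro l _ n hn1 _
      by_cases hn : n ≤ B * N
      · rw [if_pos hn, Complex.norm_real, Real.norm_eq_abs]
        exact hg n hn1 hn
      · rw [if_neg hn, norm_zero]
        positivity)
    (fun k => ¬ ∀ X : ℕ, X ≤ B * N → |∑ n ∈ Icc 1 X, g n * lr 1 0 (n + M + k)| ≤ N / Real.log N ^ U) (by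
      intro m _ hm
      push Not at hm
      obtain ⟨X, hX, h2⟩ := hm
      refine ⟨0, Nat.one_pos, X, ?_, ?_⟩
      · rw [one_mul]
        exact hX.trans (Nat.mul_le_mul_right _ (by omega))
      · refine lt_of_lt_of_eq h2 ?_
        rw [← Real.norm_eq_abs, ← Complex.norm_real]
        congr 1
        push_cast
        refine sum_congr rfl fun n hn => ?_
        have hn1 := mem_Icc.1 hn
        rw [if_pos (hn1.2.trans hX), exI_liR (k := n + M + m) (by omega) (by push_cast; ring)]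
        unfold lr
        rw [one_mul, add_zero])
  convert h1 using 1
  unfold num
  congr!

/-- weighted mean square of the correlations of two windows -/
lemma WW_sq {l : ℕ → ℝ} (hl : ∀ n, l n = 1 ∨ l n = -1) {H M Q : ℕ} {w : ℕ → ℝ} (hw : ∀ n, 0 ≤ w n) {α β : ℝ}
    (hyp : ∀ k' ∈ Icc 1 H, num (Icc 1 H) (fun k => ¬ ∀ X : ℕ, X ≤ Q →
      |∑ n ∈ Icc 1 X, (w n * l (n + M + k')) * l (n + M + k)| ≤ α) ≤ β * H)
    {Y X : ℕ} (hYX : Y ≤ X) (hX : X ≤ Q) :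
    ∑ n ∈ Ioc Y X, ∑ n' ∈ Ioc Y X, w n * w n' * (W l H (n + M) (n' + M)) ^ 2 ≤
      (H:ℝ) ^ 2 * (4 * α ^ 2 + β * (∑ n ∈ Ioc Y X, w n) ^ 2) := by
  have h1 : ∑ n ∈ Ioc Y X, ∑ n' ∈ Ioc Y X, w n * w n' * (W l H (n + M) (n' + M)) ^ 2 =
      ∑ k' ∈ Icc 1 H, ∑ k ∈ Icc 1 H, (∑ n ∈ Ioc Y X, (w n * l (n + M + k')) * l (n + M + k)) ^ 2 := by
    have e1 : ∀ n n', w n * w n' * (W l H (n + M) (n' + M)) ^ 2 = ∑ k' ∈ Icc 1 H, ∑ k ∈ Icc 1 H,
        ((w n * l (n + M + k')) * l (n + M + k)) * ((w n' * l (n' + M + k')) * l (n' + M + k)) := by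
      intro n n'
      unfold W
      rw [sq, sum_mul_sum, mul_sum]
      refine sum_congr rfl fun k' _ => ?_
      rw [mul_sum]
      refine sum_congr rfl fun k _ => by ring
    have e2 : ∀ k' k, (∑ n ∈ Ioc Y X, (w n * l (n + M + k')) * l (n + M + k)) ^ 2 =
        ∑ n ∈ Ioc Y X, ∑ n' ∈ Ioc Y X,
        ((w n * l (n + M + k')) * l (n + M + k)) * ((w n' * l (n' + M + k')) * l (n' + M + k)) := by
      intro k' k
      rw [sq, sum_mul_sum]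
    simp only [e1, e2]
    rw [sum_congr rfl fun n _ => sum_comm, sum_comm]
    refine sum_congr rfl fun k _ => ?_
    rw [sum_congr rfl fun n _ => sum_comm, sum_comm]
  rw [h1]
  set V := ∑ n ∈ Ioc Y X, w n with hV
  have hV0 : 0 ≤ V := sum_nonneg fun n _ => hw n
  have h2 : ∀ k' ∈ Icc 1 H, ∑ k ∈ Icc 1 H, (∑ n ∈ Ioc Y X, (w n * l (n + M + k')) * l (n + M + k)) ^ 2 ≤
      (H:ℝ) * (4 * α ^ 2 + β * V ^ 2) := by
    intro k' hk'
    have h3 := sum_le_of_num (I := Icc 1 H)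
      (f := fun k => (∑ n ∈ Ioc Y X, (w n * l (n + M + k')) * l (n + M + k)) ^ 2) (u := 4 * α ^ 2) (M := V ^ 2)
      (by positivity) (by
        intro k _
        have h4 : |∑ n ∈ Ioc Y X, (w n * l (n + M + k')) * l (n + M + k)| ≤ V := by
          refine (abs_sum_le_sum_abs _ _).trans (le_of_eq ?_)
          refine sum_congr rfl fun n _ => ?_
          rw [abs_mul, abs_mul, l_abs hl, l_abs hl, mul_one, mul_one, abs_of_nonneg (hw n)]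
        rw [← sq_abs]
        exact pow_le_pow_left₀ (abs_nonneg _) h4 2)
    have h5 : num (Icc 1 H) (fun k => ¬ (∑ n ∈ Ioc Y X, (w n * l (n + M + k')) * l (n + M + k)) ^ 2 ≤ 4 * α ^ 2) ≤
        β * H := by
      refine (num_mono ?_).trans (hyp k' hk')
      intro k _ hk hcon
      apply hk
      have h6 := sum_Ioc_sub (fun n => (w n * l (n + M + k')) * l (n + M + k)) hYX
      rw [h6]
      have h7 := hcon X hX
      have h8 := hcon Y (hYX.trans hX)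
      have h9 := abs_sub (∑ n ∈ Icc 1 X, (w n * l (n + M + k')) * l (n + M + k))
        (∑ n ∈ Icc 1 Y, (w n * l (n + M + k')) * l (n + M + k))
      rw [← sq_abs]
      have h10 : |∑ n ∈ Icc 1 X, (w n * l (n + M + k')) * l (n + M + k) -
          ∑ n ∈ Icc 1 Y, (w n * l (n + M + k')) * l (n + M + k)| ≤ 2 * α := by linarith
      have h11 := pow_le_pow_left₀ (abs_nonneg _) h10 2
      linarith
    rw [Nat.card_Icc, Nat.add_sub_cancel] at h3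
    have h6 := mul_le_mul_of_nonneg_left h5 (by positivity : 0 ≤ V ^ 2)
    linarith
  refine (sum_le_sum h2).trans (le_of_eq ?_)
  rw [sum_const, Nat.card_Icc, Nat.add_sub_cancel, nsmul_eq_mul]
  ring

lemma WW_le {l : ℕ → ℝ} (hl : ∀ n, l n = 1 ∨ l n = -1) {H M Q : ℕ} (hH : 1 ≤ H) {w : ℕ → ℝ} (hw : ∀ n, 0 ≤ w n)
    {α β κ : ℝ} (hκ : 0 < κ) (hyp : ∀ k' ∈ Icc 1 H, num (Icc 1 H) (fun k => ¬ ∀ X : ℕ, X ≤ Q →
      |∑ n ∈ Icc 1 X, (w n * l (n + M + k')) * l (n + M + k)| ≤ α) ≤ β * H)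
    {Y X : ℕ} (hYX : Y ≤ X) (hX : X ≤ Q) :
    WW l w H M Y X ≤ H * ((4 * α ^ 2 + β * (∑ n ∈ Ioc Y X, w n) ^ 2) / (2 * κ) +
      κ / 2 * (∑ n ∈ Ioc Y X, w n) ^ 2) := by
  have hH0 : (0:ℝ) < H := by exact_mod_cast hH
  have h1 : ∀ n n', w n * w n' * |W l H (n + M) (n' + M)| ≤
      w n * w n' * (W l H (n + M) (n' + M)) ^ 2 / (2 * κ * H) + w n * w n' * (κ * H / 2) := by
    intro n n'
    rw [← sq_abs]
    set t := |W l H (n + M) (n' + M)|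
    have h2 : t ^ 2 / (2 * κ * H) + κ * H / 2 - t = (t - κ * H) ^ 2 / (2 * κ * H) := by field_simp; ring
    have h3 : 0 ≤ (t - κ * H) ^ 2 / (2 * κ * H) := by positivity
    have h4 : 0 ≤ w n * w n' := mul_nonneg (hw n) (hw n')
    have h5 : t ≤ t ^ 2 / (2 * κ * H) + κ * H / 2 := by linarith
    refine (mul_le_mul_of_nonneg_left h5 h4).trans (le_of_eq ?_)
    ring
  unfold WW
  refine (sum_le_sum fun n _ => sum_le_sum fun n' _ => h1 n n').trans ?_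
  simp only [sum_add_distrib, ← sum_div, ← sum_mul]
  have h2 := WW_sq hl hw hyp hYX hX
  have h3 : (∑ n ∈ Ioc Y X, ∑ n' ∈ Ioc Y X, w n * w n' * (W l H (n + M) (n' + M)) ^ 2) / (2 * κ * H) ≤
      (H:ℝ) ^ 2 * (4 * α ^ 2 + β * (∑ n ∈ Ioc Y X, w n) ^ 2) / (2 * κ * H) :=
    div_le_div_of_nonneg_right h2 (by positivity)
  have h4 : (H:ℝ) ^ 2 * (4 * α ^ 2 + β * (∑ n ∈ Ioc Y X, w n) ^ 2) / (2 * κ * H) =
      H * ((4 * α ^ 2 + β * (∑ n ∈ Ioc Y X, w n) ^ 2) / (2 * κ)) := by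
    field_simp
  rw [h4] at h3
  have h5 : (∑ n ∈ Ioc Y X, ∑ n' ∈ Ioc Y X, w n * w n') * (κ * H / 2) =
      H * (κ / 2 * (∑ n ∈ Ioc Y X, w n) ^ 2) := by
    rw [← sum_mul_sum]
    ring
  rw [h5]
  linarith

/-- The mean square of the weighted sums over the ends of the blocks. -/
theorem T2_sqW {l : ℕ → ℝ} (hl : ∀ n, l n = 1 ∨ l n = -1) {H Q : ℕ} (hH : 1 ≤ H) {ξ : ℕ → ℂ} {α β κ : ℝ}
    (hκ : 0 < κ) {r : ℕ} {M M' : Fin r → ℕ}
    (hyp : ∀ i, ∀ k' ∈ Icc 1 H, num (Icc 1 H) (fun k => ¬ ∀ X : ℕ, X ≤ Q →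
      |∑ n ∈ Icc 1 X, (‖ξ n‖ * l (n + M i + k')) * l (n + M i + k)| ≤ α) ≤ β * H)
    (hyp' : ∀ i, ∀ k' ∈ Icc 1 H, num (Icc 1 H) (fun k => ¬ ∀ X : ℕ, X ≤ Q →
      |∑ n ∈ Icc 1 X, (‖ξ n‖ * l (n + M' i + k')) * l (n + M' i + k)| ≤ α) ≤ β * H)
    {Y X : ℕ} (hYX : Y ≤ X) (hX : X ≤ Q) :
    ∑ k ∈ Fintype.piFinset (fun _ : Fin r => Icc 1 H ×ˢ Icc 1 H), ‖T (fun i => G2 l (M i) (M' i)) ξ k Y X‖ ^ 2 ≤
      (H:ℝ) ^ (2 * r) * ((1 / 4) ^ r * (∑ n ∈ Ioc Y X, ‖ξ n‖) ^ 2 +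
        ((2 * r : ℕ) : ℝ) * (((4 * α ^ 2 + β * (∑ n ∈ Ioc Y X, ‖ξ n‖) ^ 2) / (2 * κ) +
          κ / 2 * (∑ n ∈ Ioc Y X, ‖ξ n‖) ^ 2) / 2 + (∑ n ∈ Ioc Y X, ‖ξ n‖) ^ 2 / H)) := by
  have hH0 : (0:ℝ) < H := by exact_mod_cast hH
  refine (T_genW (Icc 1 H ×ˢ Icc 1 H) (fun i => G2 l (M i) (M' i)) ξ Y X).trans ?_
  have h1 := Z_prod_sumW hl hH (w := fun n => ‖ξ n‖) (fun n => norm_nonneg _) Y X (univ : Finset (Fin r ⊕ Fin r))
    (Sum.elim M M')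
  rw [card_univ, Fintype.card_sum, Fintype.card_fin, ← two_mul] at h1
  have h2 : ∑ n ∈ Ioc Y X, ∑ n' ∈ Ioc Y X, ‖ξ n‖ * ‖ξ n'‖ * ∏ i, |∑ s ∈ Icc 1 H ×ˢ Icc 1 H,
      G2 l (M i) (M' i) s n * G2 l (M i) (M' i) s n'| =
      ∑ n ∈ Ioc Y X, ∑ n' ∈ Ioc Y X, ‖ξ n‖ * ‖ξ n'‖ * ∏ i : Fin r ⊕ Fin r, |Z l (Sum.elim M M' i) H n n'| := by
    refine sum_congr rfl fun n _ => sum_congr rfl fun n' _ => ?_
    rw [Fintype.prod_sum_type, ← prod_mul_distrib]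
    congr 1
    refine prod_congr rfl fun i _ => ?_
    simp only [G2_sum, abs_mul, Sum.elim_inl, Sum.elim_inr]
  rw [h2]
  refine h1.trans (mul_le_mul_of_nonneg_left ?_ (by positivity))
  have h3 : ((1:ℝ) / 2) ^ (2 * r) = (1 / 4) ^ r := by rw [pow_mul]; norm_num
  rw [h3]
  have h4 : ∀ i ∈ (univ : Finset (Fin r ⊕ Fin r)),
      WW l (fun n => ‖ξ n‖) H (Sum.elim M M' i) Y X / (2 * H) + (∑ n ∈ Ioc Y X, ‖ξ n‖) ^ 2 / (H:ℝ) ≤
      (((4 * α ^ 2 + β * (∑ n ∈ Ioc Y X, ‖ξ n‖) ^ 2) / (2 * κ) +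
          κ / 2 * (∑ n ∈ Ioc Y X, ‖ξ n‖) ^ 2) / 2 + (∑ n ∈ Ioc Y X, ‖ξ n‖) ^ 2 / H) := by
    intro i _
    have h5 : WW l (fun n => ‖ξ n‖) H (Sum.elim M M' i) Y X ≤ H * ((4 * α ^ 2 + β * (∑ n ∈ Ioc Y X, ‖ξ n‖) ^ 2) / (2 * κ) +
      κ / 2 * (∑ n ∈ Ioc Y X, ‖ξ n‖) ^ 2) := by
      rcases i with i | i
      · exact WW_le hl hH (fun n => norm_nonneg _) hκ (hyp i) hYX hX
      · exact WW_le hl hH (fun n => norm_nonneg _) hκ (hyp' i) hYX hX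
    have h6 : WW l (fun n => ‖ξ n‖) H (Sum.elim M M' i) Y X / (2 * H) ≤
        ((4 * α ^ 2 + β * (∑ n ∈ Ioc Y X, ‖ξ n‖) ^ 2) / (2 * κ) + κ / 2 * (∑ n ∈ Ioc Y X, ‖ξ n‖) ^ 2) / 2 := by
      rw [div_le_iff₀ (by positivity)]
      refine h5.trans (le_of_eq ?_)
      ring
    linarith
  have h5 := sum_le_sum h4
  rw [sum_const, card_univ, Fintype.card_sum, Fintype.card_fin, ← two_mul, nsmul_eq_mul] at h5
  linarith

end Pool.Agent.TH893.FC
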