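import Pool.Agent.TH893.FC.Log
import Pool.Agent.TH893.FC.Fin

set_option autoImplicit false

namespace Pool.Agent.TH893.FC

open Finset
open Pool.Agent.TH893.CL

lemma ev_log_big (c : ℝ) : ∃ N₀ : ℕ, ∀ N : ℕ, N₀ ≤ N → c ≤ Real.log N := by
  have h := Real.tendsto_log_atTop.comp (tendsto_natCast_atTop_atTop (R := ℝ))
  obtain ⟨N₀, h0⟩ := Filter.eventually_atTop.1 (h.eventually_ge_atTop c)
  exact ⟨N₀, fun N hN => h0 N hN⟩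

lemma ev_log_pow (E : ℕ) : ∃ N₀ : ℕ, ∀ N : ℕ, N₀ ≤ N → Real.log N ^ E ≤ N := by
  have h1 := (Real.isLittleO_pow_log_id_atTop (n := E)).bound (c := 1) one_pos
  have h2 := (tendsto_natCast_atTop_atTop (R := ℝ)).eventually h1
  obtain ⟨N₀, h0⟩ := Filter.eventually_atTop.1 h2
  refine ⟨N₀, fun N hN => ?_⟩
  have h3 := h0 N hN
  simp only [Real.norm_eq_abs, id_eq, one_mul] at h3
  rw [abs_of_nonneg (by positivity : (0:ℝ) ≤ (N:ℝ))] at h3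
  exact (le_abs_self _).trans h3

/-- Weighted mean square for one interval, long windows. -/
theorem meanW (B C T A : ℕ) : ∃ N₀ : ℕ, ∀ N H : ℕ, N₀ ≤ N → H ≤ N → (N:ℝ) ≤ Real.log N ^ C * H →
    ∀ r : ℕ, (r:ℝ) ≤ Real.log N → ∀ M M' : Fin r → ℕ, (∀ i, M i ≤ B * N) → (∀ i, M' i ≤ B * N) →
    ∀ ξ : ℕ → ℂ, (∀ n, 1 ≤ n → n ≤ B * N → ‖ξ n‖ ≤ Real.log N ^ T) → ∀ Y X : ℕ, Y ≤ X → X ≤ B * N →
    ∑ k ∈ Fintype.piFinset (fun _ : Fin r => Icc 1 H ×ˢ Icc 1 H),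
        ‖FC.T (fun i => G2 (lr 1 0) (M i) (M' i)) ξ k Y X‖ ^ 2 ≤
      (H:ℝ) ^ (2 * r) * ((1 / 4) ^ r * (∑ n ∈ Ioc Y X, ‖ξ n‖) ^ 2 + N ^ 2 / Real.log N ^ A) := by
  obtain ⟨K, hK⟩ : ∃ K, K = 2 * T + A + 3 := ⟨_, rfl⟩
  obtain ⟨U, hU⟩ : ∃ U, U = K + 2 * T + A + 3 := ⟨_, rfl⟩
  obtain ⟨N₁, h1⟩ := plus_log B C T U
  obtain ⟨N₂, h2⟩ := ev_log_big (2 * (1 + 2 * (B:ℝ) ^ 2))
  obtain ⟨N₃, h3⟩ := ev_log_pow (2 * T + C + A + 3)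
  refine ⟨max (max N₁ N₂) (max N₃ 3), ?_⟩
  intro N H hN hHN hC r hr M M' hM hM' ξ hξ Y X hYX hX
  have hN1 : N₁ ≤ N := (le_max_left _ _).trans ((le_max_left _ _).trans hN)
  have hN2 : N₂ ≤ N := (le_max_right _ _).trans ((le_max_left _ _).trans hN)
  have hN3 : N₃ ≤ N := (le_max_left _ _).trans ((le_max_right _ _).trans hN)
  have hN4 : 3 ≤ N := (le_max_right _ _).trans ((le_max_right _ _).trans hN)
  have hN0 : (0:ℝ) < N := by exact_mod_cast (by omega : 0 < N)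
  have g2 := h2 N hN2
  have g3 := h3 N hN3
  set L := Real.log N with hL
  have hL1 : 1 ≤ L := by nlinarith [sq_nonneg (B:ℝ)]
  have hL0 : 0 < L := by linarith
  have hH0 : (0:ℝ) < H := by
    by_contra hcon
    push Not at hcon
    have : L ^ C * (H:ℝ) ≤ 0 := mul_nonpos_of_nonneg_of_nonpos (by positivity) hcon
    linarith
  have hH1 : 1 ≤ H := by exact_mod_cast (by exact_mod_cast hH0 : 0 < H)
  have hyp : ∀ (M : ℕ), M ≤ B * N → ∀ k' ∈ Icc 1 H, num (Icc 1 H) (fun k => ¬ ∀ X : ℕ, X ≤ B * N →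
      |∑ n ∈ Icc 1 X, (‖ξ n‖ * lr 1 0 (n + M + k')) * lr 1 0 (n + M + k)| ≤ N / L ^ U) ≤ 1 / L ^ U * H := by
    intro M hM k' _
    have h4 := h1 N H hN1 hHN hC M hM (fun n => ‖ξ n‖ * lr 1 0 (n + M + k')) (by
      intro n hn1 hn2
      rw [abs_mul, l_abs (lr_pm 1 0), mul_one, abs_of_nonneg (norm_nonneg _)]
      exact hξ n hn1 hn2)
    refine h4.trans (le_of_eq ?_)
    ring
  have hκ0 : 0 < 1 / L ^ K := by positivity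
  refine (T2_sqW (lr_pm 1 0) hH1 hκ0 (fun i => hyp (M i) (hM i)) (fun i => hyp (M' i) (hM' i)) hYX hX).trans ?_
  refine mul_le_mul_of_nonneg_left ?_ (by positivity)
  set V := ∑ n ∈ Ioc Y X, ‖ξ n‖ with hV
  have hV0 : 0 ≤ V := sum_nonneg fun n _ => norm_nonneg _
  have hVle : V ≤ B * N * L ^ T := by
    have h4 : ∀ n ∈ Ioc Y X, ‖ξ n‖ ≤ L ^ T := by
      intro n hn
      have := mem_Ioc.1 hn
      exact hξ n (by omega) (this.2.trans hX)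
    refine (sum_le_sum h4).trans ?_
    rw [sum_const, Nat.card_Ioc, nsmul_eq_mul]
    have h5 : ((X - Y : ℕ) : ℝ) ≤ B * N := by
      have : X - Y ≤ B * N := by omega
      exact_mod_cast this
    exact mul_le_mul_of_nonneg_right h5 (by positivity)
  have hV2 : V ^ 2 ≤ (B:ℝ) ^ 2 * N ^ 2 * L ^ (2 * T) := by
    refine (pow_le_pow_left₀ hV0 hVle 2).trans (le_of_eq ?_)
    rw [mul_pow, mul_pow, ← pow_mul]
    ring
  -- the four terms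
  have t1 : 4 * (N / L ^ U) ^ 2 / (2 * (1 / L ^ K)) / 2 ≤ N ^ 2 / L ^ (A + 3) := by
    have e1 : 4 * (N / L ^ U) ^ 2 / (2 * (1 / L ^ K)) / 2 = N ^ 2 * (L ^ K / L ^ (2 * U)) := by
      rw [div_pow, ← pow_mul, mul_comm U 2]
      field_simp
      norm_num
    have e2 : L ^ K / L ^ (2 * U) ≤ 1 / L ^ (A + 3) := by
      rw [div_le_div_iff₀ (by positivity) (by positivity), one_mul, ← pow_add]
      exact pow_le_pow_right₀ hL1 (by omega)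
    rw [e1]
    refine (mul_le_mul_of_nonneg_left e2 (by positivity)).trans (le_of_eq ?_)
    ring
  have t2 : 1 / L ^ U * V ^ 2 / (2 * (1 / L ^ K)) / 2 ≤ (B:ℝ) ^ 2 * (N ^ 2 / L ^ (A + 3)) := by
    have e1 : 1 / L ^ U * V ^ 2 / (2 * (1 / L ^ K)) / 2 = V ^ 2 * (L ^ K / L ^ U) / 4 := by
      field_simp
      norm_num
    rw [e1]
    have e2 : V ^ 2 * (L ^ K / L ^ U) ≤ (B:ℝ) ^ 2 * N ^ 2 * L ^ (2 * T) * (L ^ K / L ^ U) :=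
      mul_le_mul_of_nonneg_right hV2 (by positivity)
    have e3 : (B:ℝ) ^ 2 * N ^ 2 * L ^ (2 * T) * (L ^ K / L ^ U) = (B:ℝ) ^ 2 * (N ^ 2 / L ^ (A + 3)) := by
      rw [hU]
      field_simp
      ring
    rw [e3] at e2
    have e4 : 0 ≤ (B:ℝ) ^ 2 * (N ^ 2 / L ^ (A + 3)) := by positivity
    linarith
  have t3 : 1 / L ^ K / 2 * V ^ 2 / 2 ≤ (B:ℝ) ^ 2 * (N ^ 2 / L ^ (A + 3)) / 4 := by
    have e1 : 1 / L ^ K / 2 * V ^ 2 / 2 = V ^ 2 * (1 / L ^ K) / 4 := by ring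
    rw [e1]
    have e2 : V ^ 2 * (1 / L ^ K) ≤ (B:ℝ) ^ 2 * N ^ 2 * L ^ (2 * T) * (1 / L ^ K) :=
      mul_le_mul_of_nonneg_right hV2 (by positivity)
    have e3 : (B:ℝ) ^ 2 * N ^ 2 * L ^ (2 * T) * (1 / L ^ K) = (B:ℝ) ^ 2 * (N ^ 2 / L ^ (A + 3)) := by
      rw [hK]
      field_simp
      ring
    rw [e3] at e2
    linarith
  have t4 : V ^ 2 / H ≤ (B:ℝ) ^ 2 * (N ^ 2 / L ^ (A + 3)) := by
    rw [div_le_iff₀ hH0]
    refine hV2.trans ?_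
    have e1 : (B:ℝ) ^ 2 * (N ^ 2 / L ^ (A + 3)) * H * (L ^ C) = (B:ℝ) ^ 2 * (N ^ 2 / L ^ (A + 3)) * (L ^ C * H) := by ring
    have e2 : (B:ℝ) ^ 2 * (N ^ 2 / L ^ (A + 3)) * N ≤ (B:ℝ) ^ 2 * (N ^ 2 / L ^ (A + 3)) * (L ^ C * H) :=
      mul_le_mul_of_nonneg_left hC (by positivity)
    have e3 : (B:ℝ) ^ 2 * N ^ 2 * L ^ (2 * T) * L ^ C ≤ (B:ℝ) ^ 2 * (N ^ 2 / L ^ (A + 3)) * N := by
      have e4 : (B:ℝ) ^ 2 * (N ^ 2 / L ^ (A + 3)) * N = (B:ℝ) ^ 2 * N ^ 2 * (N / L ^ (A + 3)) := by ring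
      rw [e4, mul_assoc ((B:ℝ) ^ 2 * N ^ 2)]
      refine mul_le_mul_of_nonneg_left ?_ (by positivity)
      rw [le_div_iff₀ (by positivity), ← pow_add, ← pow_add]
      have e5 : 2 * T + C + (A + 3) = 2 * T + C + A + 3 := by ring
      rw [e5]
      exact g3
    have e6 : 0 < L ^ C := by positivity
    have e7 := e3.trans e2
    rw [← e1] at e7
    exact le_of_mul_le_mul_right e7 e6
  have hsum : ((4 * (N / L ^ U) ^ 2 + 1 / L ^ U * V ^ 2) / (2 * (1 / L ^ K)) + 1 / L ^ K / 2 * V ^ 2) / 2 + V ^ 2 / H ≤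
      (1 + 3 * (B:ℝ) ^ 2) * (N ^ 2 / L ^ (A + 3)) := by
    have e1 : ((4 * (N / L ^ U) ^ 2 + 1 / L ^ U * V ^ 2) / (2 * (1 / L ^ K)) + 1 / L ^ K / 2 * V ^ 2) / 2 =
        4 * (N / L ^ U) ^ 2 / (2 * (1 / L ^ K)) / 2 + 1 / L ^ U * V ^ 2 / (2 * (1 / L ^ K)) / 2 +
          1 / L ^ K / 2 * V ^ 2 / 2 := by ring
    rw [e1]
    have e2 : 0 ≤ (B:ℝ) ^ 2 * (N ^ 2 / L ^ (A + 3)) := by positivity
    linarith
  have hfin : ((2 * r : ℕ) : ℝ) * ((1 + 3 * (B:ℝ) ^ 2) * (N ^ 2 / L ^ (A + 3))) ≤ N ^ 2 / L ^ A := by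
    have e1 : ((2 * r : ℕ) : ℝ) ≤ 2 * L := by push_cast; linarith
    have e2 : ((2 * r : ℕ) : ℝ) * ((1 + 3 * (B:ℝ) ^ 2) * (N ^ 2 / L ^ (A + 3))) ≤
        2 * L * ((1 + 3 * (B:ℝ) ^ 2) * (N ^ 2 / L ^ (A + 3))) := mul_le_mul_of_nonneg_right e1 (by positivity)
    refine e2.trans ?_
    have e3 : 2 * L * ((1 + 3 * (B:ℝ) ^ 2) * (N ^ 2 / L ^ (A + 3))) = (2 * (1 + 3 * (B:ℝ) ^ 2) / L ^ 2) * (N ^ 2 / L ^ A) := by
      rw [pow_add L A 3]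
      field_simp
    rw [e3]
    have e4 : 2 * (1 + 3 * (B:ℝ) ^ 2) / L ^ 2 ≤ 1 := by
      rw [div_le_one (by positivity)]
      nlinarith [sq_nonneg (B:ℝ)]
    have e5 : 0 ≤ (N:ℝ) ^ 2 / L ^ A := by positivity
    nlinarith
  have h9 := mul_le_mul_of_nonneg_left hsum (by positivity : (0:ℝ) ≤ ((2 * r : ℕ) : ℝ))
  linarith

end Pool.Agent.TH893.FC
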