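import Mathlib

/-!
# A maximal inequality
-/

set_option autoImplicit false

namespace Pool.Agent.TH893.FC

open Finset

/-- the total weight of an interval -/
noncomputable def wt (w : ℕ → ℝ) (Y X : ℕ) : ℝ := ∑ n ∈ Ioc Y X, w n

lemma wt_nonneg {w : ℕ → ℝ} (hw : ∀ n, 0 ≤ w n) (Y X : ℕ) : 0 ≤ wt w Y X := sum_nonneg fun n _ => hw n

lemma wt_add (w : ℕ → ℝ) {Y Z X : ℕ} (h1 : Y ≤ Z) (h2 : Z ≤ X) : wt w Y Z + wt w Z X = wt w Y X := by
  unfold wt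
  exact Finset.sum_Ioc_consecutive w h1 h2

lemma wt_self (w : ℕ → ℝ) (Y : ℕ) : wt w Y Y = 0 := by
  unfold wt
  rw [Ioc_self, sum_empty]

lemma wt_mono {w : ℕ → ℝ} (hw : ∀ n, 0 ≤ w n) {Y Z X : ℕ} (h1 : Y ≤ Z) (h2 : Z ≤ X) : wt w Y Z ≤ wt w Y X := by
  rw [← wt_add w h1 h2]
  linarith [wt_nonneg hw Z X]

/-- A maximal inequality for random sums whose mean squares over all the intervals are known. -/
theorem max_one {Ω : Type*} (S : Finset Ω) (t : Ω → ℕ → ℂ) {w : ℕ → ℝ} (hw : ∀ n, 0 ≤ w n) (Q : ℕ)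
    (ht : ∀ k n, ‖t k n‖ ≤ w n) {ρ E : ℝ} (hρ : 0 ≤ ρ) (hE : 0 ≤ E)
    (h : ∀ Y X : ℕ, Y ≤ X → X ≤ Q → ∑ k ∈ S, ‖∑ n ∈ Ioc Y X, t k n‖ ^ 2 ≤ ρ * wt w Y X ^ 2 + E) :
    ∀ d : ℕ, ∀ Y X : ℕ, Y ≤ X → X ≤ Q → ∀ Z : Ω → ℕ, (∀ k, Y ≤ Z k ∧ Z k ≤ X) →
      ∑ k ∈ S, ‖∑ n ∈ Ioc Y (Z k), t k n‖ ^ 2 ≤
        (8 * ρ + (3 / 4) ^ d * S.card) * wt w Y X ^ 2 + (3 ^ d - 1) * E := by
  have triv : ∀ Y X : ℕ, Y ≤ X → ∀ Z : Ω → ℕ, (∀ k, Y ≤ Z k ∧ Z k ≤ X) →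
      ∑ k ∈ S, ‖∑ n ∈ Ioc Y (Z k), t k n‖ ^ 2 ≤ S.card * wt w Y X ^ 2 := by
    intro Y X hYX Z hZ
    have h1 : ∀ k ∈ S, ‖∑ n ∈ Ioc Y (Z k), t k n‖ ^ 2 ≤ wt w Y X ^ 2 := by
      intro k _
      refine pow_le_pow_left₀ (norm_nonneg _) ?_ 2
      refine ((norm_sum_le _ _).trans (sum_le_sum fun n _ => ht k n)).trans ?_
      exact wt_mono hw (hZ k).1 (hZ k).2
    refine (sum_le_sum h1).trans (le_of_eq ?_)
    rw [sum_const, nsmul_eq_mul]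
  intro d
  induction d with
  | zero =>
    intro Y X hYX hX Z hZ
    refine (triv Y X hYX Z hZ).trans ?_
    have h1 : 0 ≤ wt w Y X ^ 2 := by positivity
    have h2 : 0 ≤ 8 * ρ * wt w Y X ^ 2 := by positivity
    simp only [pow_zero, one_mul, sub_self, zero_mul, add_zero]
    linarith
  | succ d ih =>
    intro Y X hYX hX Z hZ
    rcases (wt_nonneg hw Y X).eq_or_lt with h0 | h0
    · refine (triv Y X hYX Z hZ).trans ?_
      rw [← h0]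
      have h1 : (0:ℝ) ≤ (3 ^ (d + 1) - 1) * E := by
        refine mul_nonneg ?_ hE
        have := one_le_pow₀ (by norm_num : (1:ℝ) ≤ 3) (n := d + 1)
        linarith
      simpa using h1
    · classical
      have hex : ∃ z, Y ≤ z ∧ wt w Y X / 2 ≤ wt w Y z := ⟨X, hYX, by linarith⟩
      obtain ⟨z, hz⟩ : ∃ z, z = Nat.find hex := ⟨_, rfl⟩
      have hz1 : Y ≤ z ∧ wt w Y X / 2 ≤ wt w Y z := by rw [hz]; exact Nat.find_spec hex
      have hzX : z ≤ X := by rw [hz]; exact Nat.find_min' hex ⟨hYX, by linarith⟩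
      have hYz : Y < z := by
        rcases hz1.1.eq_or_lt with h1 | h1
        · exfalso
          have h2 := hz1.2
          rw [← h1, wt_self] at h2
          linarith
        · exact h1
      have hzm : wt w Y (z - 1) < wt w Y X / 2 := by
        by_contra hcon
        push Not at hcon
        have h1 : Nat.find hex ≤ z - 1 := Nat.find_min' hex ⟨by omega, hcon⟩
        omega
      have hzr : wt w z X ≤ wt w Y X / 2 := by
        have := wt_add w hz1.1 hzX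
        linarith [hz1.2]
      obtain ⟨V, hV⟩ : ∃ V, V = wt w Y X := ⟨_, rfl⟩
      rw [← hV] at h0 hz1 hzm hzr ⊢
      -- the two new functions
      have i1 := ih Y (z - 1) (by omega) (by omega) (fun k => if Z k < z then Z k else Y) (by
        intro k
        have := hZ k
        by_cases hk : Z k < z
        · simp only [hk, if_true]; omega
        · simp only [hk, if_false]; omega)
      have i2 := ih z X hzX hX (fun k => max (Z k) z) (by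
        intro k
        have := hZ k
        exact ⟨le_max_right _ _, max_le this.2 hzX⟩)
      have i3 := h Y z hz1.1 (hzX.trans hX)
      have key : ∀ k ∈ S, ‖∑ n ∈ Ioc Y (Z k), t k n‖ ^ 2 ≤
          ‖∑ n ∈ Ioc Y (if Z k < z then Z k else Y), t k n‖ ^ 2 +
          2 * ‖∑ n ∈ Ioc z (max (Z k) z), t k n‖ ^ 2 + 2 * ‖∑ n ∈ Ioc Y z, t k n‖ ^ 2 := by
        intro k _
        by_cases hk : Z k < z
        · simp only [hk, if_true]
          have e1 : 0 ≤ ‖∑ n ∈ Ioc z (max (Z k) z), t k n‖ ^ 2 := by positivity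
          have e2 : 0 ≤ ‖∑ n ∈ Ioc Y z, t k n‖ ^ 2 := by positivity
          linarith
        · simp only [hk, if_false]
          have hk' : z ≤ Z k := not_lt.1 hk
          rw [max_eq_left hk', Ioc_self, sum_empty, norm_zero, ← Finset.sum_Ioc_consecutive (t k) hz1.1 hk']
          have e1 := norm_add_le (∑ n ∈ Ioc Y z, t k n) (∑ n ∈ Ioc z (Z k), t k n)
          have e2 := pow_le_pow_left₀ (norm_nonneg _) e1 2
          nlinarith [sq_nonneg (‖∑ n ∈ Ioc Y z, t k n‖ - ‖∑ n ∈ Ioc z (Z k), t k n‖)]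
      refine (sum_le_sum key).trans ?_
      rw [sum_add_distrib, sum_add_distrib, ← mul_sum, ← mul_sum]
      have q1 : wt w Y (z - 1) ^ 2 ≤ V ^ 2 / 4 := by
        have := pow_le_pow_left₀ (wt_nonneg hw Y (z - 1)) hzm.le 2
        linarith
      have q2 : wt w z X ^ 2 ≤ V ^ 2 / 4 := by
        have := pow_le_pow_left₀ (wt_nonneg hw z X) hzr 2
        linarith
      have q3 : wt w Y z ^ 2 ≤ V ^ 2 := by
        rw [hV]
        exact pow_le_pow_left₀ (wt_nonneg hw Y z) (wt_mono hw hz1.1 hzX) 2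
      have a0 : 0 ≤ 8 * ρ + (3 / 4) ^ d * (S.card : ℝ) := by positivity
      have r1 := mul_le_mul_of_nonneg_left q1 a0
      have r2 := mul_le_mul_of_nonneg_left q2 a0
      have r3 := mul_le_mul_of_nonneg_left q3 hρ
      have e3 : (3:ℝ) ^ (d + 1) = 3 * 3 ^ d := by rw [pow_succ]; ring
      have e4 : (3 / 4 : ℝ) ^ (d + 1) = 3 / 4 * (3 / 4) ^ d := by rw [pow_succ]; ring
      rw [e3, e4]
      nlinarith

/-- Both ends. -/
theorem max_two {Ω : Type*} (S : Finset Ω) (t : Ω → ℕ → ℂ) {w : ℕ → ℝ} (hw : ∀ n, 0 ≤ w n) (Q : ℕ)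
    (ht : ∀ k n, ‖t k n‖ ≤ w n) {ρ E : ℝ} (hρ : 0 ≤ ρ) (hE : 0 ≤ E)
    (h : ∀ Y X : ℕ, Y ≤ X → X ≤ Q → ∑ k ∈ S, ‖∑ n ∈ Ioc Y X, t k n‖ ^ 2 ≤ ρ * wt w Y X ^ 2 + E)
    (d : ℕ) (Y X : Ω → ℕ) (hYX : ∀ k, Y k ≤ X k ∧ X k ≤ Q) :
    ∑ k ∈ S, ‖∑ n ∈ Ioc (Y k) (X k), t k n‖ ^ 2 ≤
        4 * ((8 * ρ + (3 / 4) ^ d * S.card) * wt w 0 Q ^ 2 + (3 ^ d - 1) * E) := by
  have h1 := max_one S t hw Q ht hρ hE h d 0 Q (Nat.zero_le _) le_rfl X (fun k => ⟨Nat.zero_le _, (hYX k).2⟩)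
  have h2 := max_one S t hw Q ht hρ hE h d 0 Q (Nat.zero_le _) le_rfl Y
    (fun k => ⟨Nat.zero_le _, (hYX k).1.trans (hYX k).2⟩)
  have key : ∀ k ∈ S, ‖∑ n ∈ Ioc (Y k) (X k), t k n‖ ^ 2 ≤
      2 * ‖∑ n ∈ Ioc 0 (X k), t k n‖ ^ 2 + 2 * ‖∑ n ∈ Ioc 0 (Y k), t k n‖ ^ 2 := by
    intro k _
    have e0 := Finset.sum_Ioc_consecutive (t k) (Nat.zero_le (Y k)) (hYX k).1
    have e1 : ∑ n ∈ Ioc (Y k) (X k), t k n = ∑ n ∈ Ioc 0 (X k), t k n - ∑ n ∈ Ioc 0 (Y k), t k n := by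
      rw [← e0]; ring
    rw [e1]
    have e2 := norm_sub_le (∑ n ∈ Ioc 0 (X k), t k n) (∑ n ∈ Ioc 0 (Y k), t k n)
    have e3 := pow_le_pow_left₀ (norm_nonneg _) e2 2
    nlinarith [sq_nonneg (‖∑ n ∈ Ioc 0 (X k), t k n‖ - ‖∑ n ∈ Ioc 0 (Y k), t k n‖)]
  refine (sum_le_sum key).trans ?_
  rw [sum_add_distrib, ← mul_sum, ← mul_sum]
  linarith

end Pool.Agent.TH893.FC
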