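import Pool.Agent.TH893.FC.LogFin
import Pool.Agent.TH893.FC.Max

set_option autoImplicit false

namespace Pool.Agent.TH893.FC

open Finset
open Pool.Agent.TH893.CL

lemma depth {L : ℝ} (hL : 1 ≤ L) (K : ℕ) : ∃ d : ℕ, (3 / 4 : ℝ) ^ d ≤ 1 / L ^ K ∧ (3:ℝ) ^ d ≤ 9 * L ^ (8 * K) := by
  have hL0 : 0 < L := by linarith
  have hl0 : 0 ≤ Real.log L := Real.log_nonneg hL
  refine ⟨⌈4 * (K:ℝ) * Real.log L⌉₊, ?_, ?_⟩
  · have h1 : (3 / 4 : ℝ) ≤ Real.exp (-(1 / 4)) := by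
      have := Real.add_one_le_exp (-(1 / 4 : ℝ))
      linarith
    refine (pow_le_pow_left₀ (by norm_num) h1 _).trans ?_
    have h3 : 1 / L ^ K = Real.exp (-((K:ℝ) * Real.log L)) := by
      rw [Real.exp_neg, Real.exp_nat_mul, Real.exp_log hL0, one_div]
    rw [← Real.exp_nat_mul, h3]
    apply Real.exp_le_exp.2
    have h2 := Nat.le_ceil (4 * (K:ℝ) * Real.log L)
    linarith
  · have h1 : (3:ℝ) ≤ Real.exp 2 := by
      have := Real.add_one_le_exp (2 : ℝ)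
      linarith
    refine (pow_le_pow_left₀ (by norm_num) h1 _).trans ?_
    rw [← Real.exp_nat_mul]
    have h2 : (⌈4 * (K:ℝ) * Real.log L⌉₊ : ℝ) ≤ 4 * (K:ℝ) * Real.log L + 1 := (Nat.ceil_lt_add_one (by positivity)).le
    have h3 : Real.exp 2 ≤ 9 := by
      have e1 : Real.exp 2 = Real.exp 1 ^ 2 := by rw [← Real.exp_nat_mul]; norm_num
      rw [e1]
      have := Real.exp_one_lt_d9
      have h0 := Real.exp_pos 1
      nlinarith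
    have h4 : L ^ (8 * K) = Real.exp ((8 * K : ℕ) * Real.log L) := by
      rw [Real.exp_nat_mul, Real.exp_log hL0]
    rw [h4]
    refine le_trans (Real.exp_le_exp.2 ?_) (le_of_eq_of_le (Real.exp_add 2 _) (mul_le_mul_of_nonneg_right h3 (Real.exp_pos _).le))
    push_cast
    linarith

lemma card_ends (r H : ℕ) : ((Fintype.piFinset (fun _ : Fin r => Icc 1 H ×ˢ Icc 1 H)).card : ℝ) = (H:ℝ) ^ (2 * r) := by
  rw [Fintype.card_piFinset]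
  simp only [card_product, Nat.card_Icc, Nat.add_sub_cancel, prod_const, card_univ, Fintype.card_fin]
  push_cast
  rw [pow_mul]
  ring

/-- Weighted mean square of the maxima over the intervals, long windows. -/
theorem maxW (B C T A : ℕ) : ∃ N₀ : ℕ, ∀ N H : ℕ, N₀ ≤ N → H ≤ N → (N:ℝ) ≤ Real.log N ^ C * H →
    ∀ r : ℕ, (r:ℝ) ≤ Real.log N → ∀ M M' : Fin r → ℕ, (∀ i, M i ≤ B * N) → (∀ i, M' i ≤ B * N) →
    ∀ ξ : ℕ → ℂ, (∀ n, 1 ≤ n → n ≤ B * N → ‖ξ n‖ ≤ Real.log N ^ T) →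
    ∀ Y X : (Fin r → ℕ × ℕ) → ℕ, (∀ k, Y k ≤ X k ∧ X k ≤ B * N) →
    ∑ k ∈ Fintype.piFinset (fun _ : Fin r => Icc 1 H ×ˢ Icc 1 H),
        ‖FC.T (fun i => G2 (lr 1 0) (M i) (M' i)) ξ k (Y k) (X k)‖ ^ 2 ≤
      (H:ℝ) ^ (2 * r) * (32 * (∑ n ∈ Ioc 0 (B * N), ‖ξ n‖) ^ 2 / 4 ^ r + N ^ 2 / Real.log N ^ A) := by
  obtain ⟨K, hK⟩ : ∃ K, K = 2 * T + A + 1 := ⟨_, rfl⟩
  obtain ⟨A', hA'⟩ : ∃ A', A' = A + 8 * K + 1 := ⟨_, rfl⟩
  obtain ⟨N₁, h1⟩ := meanW B C T A'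
  obtain ⟨N₂, h2⟩ := ev_log_big (72 + 8 * (B:ℝ) ^ 2)
  refine ⟨max N₁ N₂, ?_⟩
  intro N H hN hHN hC r hr M M' hM hM' ξ hξ Y X hYX
  have g2 := h2 N ((le_max_right _ _).trans hN)
  have g1 := h1 N H ((le_max_left _ _).trans hN) hHN hC r hr M M' hM hM' ξ hξ
  set L := Real.log N with hL
  have hB2 : 0 ≤ (B:ℝ) ^ 2 := by positivity
  have hL1 : 1 ≤ L := by linarith
  have hL0 : 0 < L := by linarith
  obtain ⟨d, hd1, hd2⟩ := depth hL1 K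
  obtain ⟨c, hc⟩ : ∃ c : ℝ, c = (H:ℝ) ^ (2 * r) := ⟨_, rfl⟩
  have hc0 : 0 ≤ c := by rw [hc]; positivity
  rw [← hc] at g1 ⊢
  have g3 := max_two (Fintype.piFinset (fun _ : Fin r => Icc 1 H ×ˢ Icc 1 H))
    (fun k n => ξ n * ((∏ i, G2 (lr 1 0) (M i) (M' i) (k i) n : ℝ) : ℂ)) (w := fun n => ‖ξ n‖)
    (fun n => norm_nonneg _) (B * N) (by
      intro k n
      rw [norm_mul, Complex.norm_real, Real.norm_eq_abs, abs_prod]
      exact mul_le_of_le_one_right (norm_nonneg _)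
        (prod_le_one (fun i _ => abs_nonneg _) fun i _ => G2_abs (lr_pm 1 0) _ _ _ _)) (ρ := c * (1 / 4) ^ r) (E := c * (N ^ 2 / L ^ A')) (by positivity) (by positivity) (by
      intro Y X hYX hX
      have := g1 Y X hYX hX
      unfold wt
      unfold FC.T at this
      refine this.trans (le_of_eq ?_)
      ring) d Y X hYX
  rw [card_ends, ← hc] at g3
  unfold FC.T
  refine g3.trans ?_
  have hwt : wt (fun n => ‖ξ n‖) 0 (B * N) = ∑ n ∈ Ioc 0 (B * N), ‖ξ n‖ := rfl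
  rw [hwt]
  set V := ∑ n ∈ Ioc 0 (B * N), ‖ξ n‖ with hV
  have hV0 : 0 ≤ V := sum_nonneg fun n _ => norm_nonneg _
  have hVle : V ≤ B * N * L ^ T := by
    have h4 : ∀ n ∈ Ioc 0 (B * N), ‖ξ n‖ ≤ L ^ T := by
      intro n hn
      have := mem_Ioc.1 hn
      exact hξ n (by omega) this.2
    refine (sum_le_sum h4).trans (le_of_eq ?_)
    rw [sum_const, Nat.card_Ioc, nsmul_eq_mul]
    push_cast
    rw [Nat.sub_zero]
    push_cast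
    ring
  have hV2 : V ^ 2 ≤ (B:ℝ) ^ 2 * N ^ 2 * L ^ (2 * T) := by
    refine (pow_le_pow_left₀ hV0 hVle 2).trans (le_of_eq ?_)
    rw [mul_pow, mul_pow, ← pow_mul]
    ring
  have hN2 : (0:ℝ) ≤ (N:ℝ) ^ 2 := by positivity
  have t1 : 4 * ((3 / 4 : ℝ) ^ d * V ^ 2) ≤ N ^ 2 / L ^ A / 2 := by
    have e1 : (3 / 4 : ℝ) ^ d * V ^ 2 ≤ 1 / L ^ K * ((B:ℝ) ^ 2 * N ^ 2 * L ^ (2 * T)) :=
      mul_le_mul hd1 hV2 (by positivity) (by positivity)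
    have e2 : 1 / L ^ K * ((B:ℝ) ^ 2 * N ^ 2 * L ^ (2 * T)) = (B:ℝ) ^ 2 / L * (N ^ 2 / L ^ A) := by
      rw [hK, pow_add L (2 * T + A) 1, pow_add L (2 * T) A]
      field_simp
    rw [e2] at e1
    have e3 : (B:ℝ) ^ 2 / L ≤ 1 / 8 := by
      rw [div_le_iff₀ hL0]
      linarith
    have e4 : (B:ℝ) ^ 2 / L * (N ^ 2 / L ^ A) ≤ 1 / 8 * (N ^ 2 / L ^ A) := mul_le_mul_of_nonneg_right e3 (by positivity)
    linarith
  have t2 : 4 * (3 ^ d * (N ^ 2 / L ^ A')) ≤ N ^ 2 / L ^ A / 2 := by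
    have e1 : (3:ℝ) ^ d * (N ^ 2 / L ^ A') ≤ 9 * L ^ (8 * K) * (N ^ 2 / L ^ A') :=
      mul_le_mul_of_nonneg_right hd2 (by positivity)
    have e2 : 9 * L ^ (8 * K) * (N ^ 2 / L ^ A') = 9 / L * (N ^ 2 / L ^ A) := by
      rw [hA', pow_add L (A + 8 * K) 1, pow_add L A (8 * K)]
      field_simp
    rw [e2] at e1
    have e3 : 9 / L ≤ 1 / 8 := by
      rw [div_le_iff₀ hL0]
      linarith
    have e4 : 9 / L * (N ^ 2 / L ^ A) ≤ 1 / 8 * (N ^ 2 / L ^ A) := mul_le_mul_of_nonneg_right e3 (by positivity)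
    linarith
  have e5 : (1 / 4 : ℝ) ^ r = 1 / 4 ^ r := by rw [one_div, inv_pow, one_div]
  rw [e5]
  have e6 : 4 * ((8 * (c * (1 / 4 ^ r)) + (3 / 4) ^ d * c) * V ^ 2 + (3 ^ d - 1) * (c * (N ^ 2 / L ^ A'))) =
      c * (32 * V ^ 2 / 4 ^ r + 4 * ((3 / 4 : ℝ) ^ d * V ^ 2) + 4 * (3 ^ d * (N ^ 2 / L ^ A')) - 4 * (N ^ 2 / L ^ A')) := by
    ring
  rw [e6]
  refine mul_le_mul_of_nonneg_left ?_ hc0
  have e7 : 0 ≤ (N:ℝ) ^ 2 / L ^ A' := by positivity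
  linarith

open Classical in
/-- The number of the elements of the finite set `I` with the property `E`. -/
noncomputable def numA {α : Type} (I : Finset α) (E : α → Prop) : ℝ := ((I.filter E).card : ℝ)

lemma numA_cheb {α : Type} (S : Finset α) (E : α → Prop) (f : α → ℝ) (c : ℝ) (hf : ∀ k, 0 ≤ f k)
    (h : ∀ k, E k → c ≤ f k) : numA S E * c ≤ ∑ k ∈ S, f k := by
  classical
  unfold numA
  rw [← nsmul_eq_mul, ← sum_const]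
  refine le_trans (sum_le_sum fun k hk => ?_) (sum_le_sum_of_subset_of_nonneg (filter_subset E S) fun _ _ _ => hf _)
  exact h k (mem_filter.1 hk).2

/-- All the intervals simultaneously, for almost all the ends. -/
theorem uniW (B C T A : ℕ) : ∃ N₀ : ℕ, ∀ N H : ℕ, N₀ ≤ N → H ≤ N → (N:ℝ) ≤ Real.log N ^ C * H →
    ∀ r : ℕ, (r:ℝ) ≤ Real.log N → ∀ M M' : Fin r → ℕ, (∀ i, M i ≤ B * N) → (∀ i, M' i ≤ B * N) →
    ∀ ξ : ℕ → ℂ, (∀ n, 1 ≤ n → n ≤ B * N → ‖ξ n‖ ≤ Real.log N ^ T) →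
    ∀ δ : ℝ, 1 / Real.log N ^ A ≤ δ → 32 / δ ^ 3 ≤ 4 ^ r →
    numA (Fintype.piFinset (fun _ : Fin r => Icc 1 H ×ˢ Icc 1 H)) (fun k => ¬ ∀ Y X : ℕ, Y ≤ X → X ≤ B * N →
        ‖FC.T (fun i => G2 (lr 1 0) (M i) (M' i)) ξ k Y X‖ ≤
          δ * (∑ n ∈ Ioc 0 (B * N), ‖ξ n‖) + N / Real.log N ^ A) ≤ δ * (H:ℝ) ^ (2 * r) := by
  classical
  obtain ⟨N₁, h1⟩ := maxW B C T (3 * A)
  refine ⟨max N₁ 3, ?_⟩
  intro N H hN hHN hC r hr M M' hM hM' ξ hξ δ hδ hrδ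
  have hN3 : 3 ≤ N := (le_max_right _ _).trans hN
  have hN0 : (0:ℝ) < N := by exact_mod_cast (by omega : 0 < N)
  have hlog1 : 1 ≤ Real.log N := by
    rw [Real.le_log_iff_exp_le hN0]
    have : (3:ℝ) ≤ N := by exact_mod_cast hN3
    linarith [Real.exp_one_lt_d9]
  have g1 := h1 N H ((le_max_left _ _).trans hN) hHN hC r hr M M' hM hM' ξ hξ
  set L := Real.log N with hL
  have hL0 : 0 < L := by linarith
  have hδ0 : 0 < δ := lt_of_lt_of_le (by positivity) hδ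
  set V := ∑ n ∈ Ioc 0 (B * N), ‖ξ n‖ with hV
  have hV0 : 0 ≤ V := sum_nonneg fun n _ => norm_nonneg _
  obtain ⟨S, hS⟩ : ∃ S, S = Fintype.piFinset (fun _ : Fin r => Icc 1 H ×ˢ Icc 1 H) := ⟨_, rfl⟩
  rw [← hS] at g1 ⊢
  obtain ⟨Tt, hT⟩ : ∃ Tt : (Fin r → ℕ × ℕ) → ℕ → ℕ → ℂ, Tt = FC.T (fun i => G2 (lr 1 0) (M i) (M' i)) ξ := ⟨_, rfl⟩
  rw [← hT] at g1 ⊢
  set e : ℝ := N / L ^ A with he
  have he0 : 0 < e := by positivity
  set τ : ℝ := δ * V + e with hτ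
  have hτ0 : 0 < τ := by positivity
  have hch : ∀ k : Fin r → ℕ × ℕ, ∃ p : ℕ × ℕ, (p.1 ≤ p.2 ∧ p.2 ≤ B * N) ∧
      ((¬ ∀ Y X : ℕ, Y ≤ X → X ≤ B * N → ‖Tt k Y X‖ ≤ τ) → τ < ‖Tt k p.1 p.2‖) := by
    intro k
    by_cases hk : ∀ Y X : ℕ, Y ≤ X → X ≤ B * N → ‖Tt k Y X‖ ≤ τ
    · exact ⟨(0, 0), ⟨le_rfl, Nat.zero_le _⟩, fun h => absurd hk h⟩
    · have hk' := hk
      push Not at hk'
      obtain ⟨Y, X, h2, h3, h4⟩ := hk'
      exact ⟨(Y, X), ⟨h2, h3⟩, fun _ => h4⟩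
  choose p hp1 hp2 using hch
  have g2 := g1 (fun k => (p k).1) (fun k => (p k).2) hp1
  have g3 : numA S (fun k => ¬ ∀ Y X : ℕ, Y ≤ X → X ≤ B * N → ‖Tt k Y X‖ ≤ τ) * τ ^ 2 ≤
      ∑ k ∈ S, ‖Tt k (p k).1 (p k).2‖ ^ 2 := by
    refine numA_cheb S _ (fun k => ‖Tt k (p k).1 (p k).2‖ ^ 2) _ (fun k => by positivity) fun k hk => ?_
    exact pow_le_pow_left₀ hτ0.le (hp2 k hk).le 2
  have g4 := g3.trans g2
  obtain ⟨c, hc⟩ : ∃ c : ℝ, c = (H:ℝ) ^ (2 * r) := ⟨_, rfl⟩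
  have hc0 : 0 ≤ c := by rw [hc]; positivity
  rw [← hc] at g4 ⊢
  have g5 : 32 * V ^ 2 / 4 ^ r + N ^ 2 / L ^ (3 * A) ≤ δ * τ ^ 2 := by
    have e1 : 32 * V ^ 2 / 4 ^ r ≤ δ * (δ * V) ^ 2 := by
      rw [div_le_iff₀ (by positivity)]
      rw [div_le_iff₀ (by positivity)] at hrδ
      have := mul_le_mul_of_nonneg_right hrδ (by positivity : 0 ≤ V ^ 2)
      refine this.trans (le_of_eq ?_)
      ring
    have e2 : N ^ 2 / L ^ (3 * A) ≤ δ * e ^ 2 := by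
      have e3 : (N:ℝ) ^ 2 / L ^ (3 * A) = 1 / L ^ A * e ^ 2 := by
        rw [he, show 3 * A = A + A + A by ring, pow_add, pow_add]
        field_simp
      rw [e3]
      exact mul_le_mul_of_nonneg_right hδ (by positivity)
    have e4 : δ * (δ * V) ^ 2 + δ * e ^ 2 ≤ δ * τ ^ 2 := by
      rw [hτ]
      have : 0 ≤ δ * V * e := by positivity
      nlinarith
    linarith
  have g6 := g4.trans (mul_le_mul_of_nonneg_left g5 hc0)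
  have hτ2 : 0 < τ ^ 2 := by positivity
  have g7 : numA S (fun k => ¬ ∀ Y X : ℕ, Y ≤ X → X ≤ B * N → ‖Tt k Y X‖ ≤ τ) * τ ^ 2 ≤ (δ * c) * τ ^ 2 := by
    refine g6.trans (le_of_eq ?_)
    ring
  exact le_of_mul_le_mul_right g7 hτ2

end Pool.Agent.TH893.FC
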