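import Pool.Agent.TH893.FC.Core

/-!
# Unbounded weights
-/

set_option autoImplicit false

namespace Pool.Agent.TH893.FC

open Finset
open Pool.Agent.TH893.CL

variable {l : ℕ → ℝ}

/-- The mean square over the members, arbitrary weights. -/
theorem T_genW {α : Type*} [DecidableEq α] (S : Finset α) {m : ℕ} (G : Fin m → α → ℕ → ℝ) (ξ : ℕ → ℂ) (Y X : ℕ) :
    ∑ k ∈ Fintype.piFinset (fun _ : Fin m => S), ‖T G ξ k Y X‖ ^ 2 ≤
      ∑ n ∈ Ioc Y X, ∑ n' ∈ Ioc Y X, ‖ξ n‖ * ‖ξ n'‖ * ∏ i, |∑ s ∈ S, G i s n * G i s n'| := by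
  have key : ∑ k ∈ Fintype.piFinset (fun _ : Fin m => S), ((‖T G ξ k Y X‖ ^ 2 : ℝ) : ℂ) =
      ∑ n ∈ Ioc Y X, ∑ n' ∈ Ioc Y X, ξ n * (starRingEnd ℂ) (ξ n') *
        ((∏ i, (∑ s ∈ S, G i s n * G i s n') : ℝ) : ℂ) := by
    have e1 : ∀ k : Fin m → α, ((‖T G ξ k Y X‖ ^ 2 : ℝ) : ℂ) = ∑ n ∈ Ioc Y X, ∑ n' ∈ Ioc Y X,
        ξ n * (starRingEnd ℂ) (ξ n') * ((∏ i, (G i (k i) n * G i (k i) n') : ℝ) : ℂ) := by
      intro k
      have h1 : ((‖T G ξ k Y X‖ ^ 2 : ℝ) : ℂ) = T G ξ k Y X * (starRingEnd ℂ) (T G ξ k Y X) := by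
        rw [Complex.mul_conj, Complex.normSq_eq_norm_sq]
      rw [h1]
      unfold T
      rw [map_sum, sum_mul_sum]
      refine sum_congr rfl fun n _ => sum_congr rfl fun n' _ => ?_
      rw [map_mul, Complex.conj_ofReal, prod_mul_distrib]
      push_cast
      ring
    simp only [e1]
    rw [sum_comm]
    refine sum_congr rfl fun n _ => ?_
    rw [sum_comm]
    refine sum_congr rfl fun n' _ => ?_
    rw [← mul_sum]
    congr 1
    rw [← Complex.ofReal_sum]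
    congr 1
    have e2 := Finset.prod_univ_sum (fun _ : Fin m => S) (fun i k => G i k n * G i k n')
    rw [e2]
  have h2 : ‖∑ k ∈ Fintype.piFinset (fun _ : Fin m => S), ((‖T G ξ k Y X‖ ^ 2 : ℝ) : ℂ)‖ ≤
      ∑ n ∈ Ioc Y X, ∑ n' ∈ Ioc Y X, ‖ξ n‖ * ‖ξ n'‖ * ∏ i, |∑ s ∈ S, G i s n * G i s n'| := by
    rw [key]
    refine (norm_sum_le _ _).trans (sum_le_sum fun n _ => (norm_sum_le _ _).trans (sum_le_sum fun n' _ => ?_))
    rw [norm_mul, norm_mul, Complex.norm_real, Real.norm_eq_abs, abs_prod, RCLike.norm_conj]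
  rw [← Complex.ofReal_sum, Complex.norm_real, Real.norm_eq_abs] at h2
  exact (le_abs_self _).trans h2

/-- the weighted sum of the correlations of two windows -/
noncomputable def WW (l : ℕ → ℝ) (w : ℕ → ℝ) (H M Y X : ℕ) : ℝ :=
  ∑ n ∈ Ioc Y X, ∑ n' ∈ Ioc Y X, w n * w n' * |W l H (n + M) (n' + M)|

/-- sum of the products of the correlations of two windows, with weights -/
lemma Z_prod_sumW (hl : ∀ n, l n = 1 ∨ l n = -1) {H : ℕ} (hH : 1 ≤ H) {w : ℕ → ℝ} (hw : ∀ n, 0 ≤ w n) (Y X : ℕ)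
    {ι : Type*} (s : Finset ι) (M : ι → ℕ) :
    ∑ n ∈ Ioc Y X, ∑ n' ∈ Ioc Y X, w n * w n' * ∏ i ∈ s, |Z l (M i) H n n'| ≤
      (H:ℝ) ^ s.card * ((1 / 2) ^ s.card * (∑ n ∈ Ioc Y X, w n) ^ 2 +
        ∑ i ∈ s, (WW l w H (M i) Y X / (2 * H) + (∑ n ∈ Ioc Y X, w n) ^ 2 / H)) := by
  have hH0 : (0:ℝ) < H := by exact_mod_cast hH
  have h1 : ∀ n n', w n * w n' * ∏ i ∈ s, |Z l (M i) H n n'| ≤ (H:ℝ) ^ s.card * ((1 / 2) ^ s.card * (w n * w n') +
      ∑ i ∈ s, (w n * w n' * |W l H (n + M i) (n' + M i)| / (2 * H) + w n * w n' / H)) := by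
    intro n n'
    have h2 : ∀ i, |Z l (M i) H n n'| / H ≤ 1 := fun i => by rw [div_le_one hH0]; exact Z_abs hl _ H n n'
    have h3 : ∀ i, |Z l (M i) H n n'| / H ≤ 1 / 2 + (|W l H (n + M i) (n' + M i)| / (2 * H) + 1 / H) := by
      intro i
      rw [div_le_iff₀ hH0]
      have h4 := Z_le hl (M i) H n n'
      have h5 := le_abs_self (W l H (n + M i) (n' + M i))
      have h6 : (1 / 2 + (|W l H (n + M i) (n' + M i)| / (2 * H) + 1 / H)) * H =
          H / 2 + |W l H (n + M i) (n' + M i)| / 2 + 1 := by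
        field_simp
        ring
      rw [h6]
      linarith
    have h4 := prod_le_half s (fun i => by positivity) h2 h3 (fun i => by positivity)
    rw [prod_div_distrib, prod_const, div_le_iff₀ (by positivity)] at h4
    have h5 : 0 ≤ w n * w n' := mul_nonneg (hw n) (hw n')
    refine (mul_le_mul_of_nonneg_left h4 h5).trans (le_of_eq ?_)
    have h6 : ∑ i ∈ s, (w n * w n' * |W l H (n + M i) (n' + M i)| / (2 * H) + w n * w n' / H) =
        (w n * w n') * ∑ i ∈ s, (|W l H (n + M i) (n' + M i)| / (2 * H) + 1 / H) := by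
      rw [mul_sum]
      refine sum_congr rfl fun i _ => ?_
      ring
    rw [h6]
    ring
  refine (sum_le_sum fun n _ => sum_le_sum fun n' _ => h1 n n').trans (le_of_eq ?_)
  simp only [← mul_sum]
  congr 1
  simp only [sum_add_distrib, ← mul_sum]
  have e2 : ∑ n ∈ Ioc Y X, w n * ∑ n' ∈ Ioc Y X, w n' = (∑ n ∈ Ioc Y X, w n) ^ 2 := by
    rw [sq, sum_mul]
  have e3 : ∑ n ∈ Ioc Y X, ∑ n' ∈ Ioc Y X, ∑ i ∈ s, w n * w n' * |W l H (n + M i) (n' + M i)| / (2 * H) =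
      ∑ i ∈ s, WW l w H (M i) Y X / (2 * H) := by
    rw [sum_congr rfl fun n _ => sum_comm, sum_comm]
    refine sum_congr rfl fun i _ => ?_
    unfold WW
    rw [sum_div]
    refine sum_congr rfl fun n _ => ?_
    rw [sum_div]
  have e4 : ∑ n ∈ Ioc Y X, ∑ n' ∈ Ioc Y X, ∑ _i ∈ s, w n * w n' / H =
      ∑ _i ∈ s, (∑ n ∈ Ioc Y X, w n) ^ 2 / (H:ℝ) := by
    simp only [sum_const, nsmul_eq_mul, ← mul_sum, ← sum_div]
    rw [e2]
  rw [e2, e3, e4]

end Pool.Agent.TH893.FC
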